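import Pool.Agent.Helper31.AO.Defs

/-!
# JB (MP_c2aa42_lc): hitting sets for the border of `C (T_1, ..., T_m)` of small transcendence degree: definitions

`T_i = P_i * ∏ j, G_ij` with `P_i` of any-order rank `ρ` and factors `G_ij` all of whose powers have small
any-order rank. Everything is done in `ℂ[x]`, modulo the powers of the ideal of polynomials vanishing at `β`.
-/

namespace JB

open MvPolynomial AOR Filter Topology

/-- All powers of `G` have small any-order rank: `≤ (l K + 1) ^ w` for `G ^ l`. -/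
def GP {n : ℕ} (K w : ℕ) (G : MvPolynomial (Fin n) ℂ) : Prop :=
  ∀ l : ℕ, AO ((l * K + 1) ^ w) (G ^ l)

/-- A product of `s` factors with `GP K w` and of a polynomial of any-order rank `≤ ρ`, all of
degree `≤ d`. -/
def IsTerm {n : ℕ} (K w s d ρ : ℕ) (T : MvPolynomial (Fin n) ℂ) : Prop :=
  ∃ (P : MvPolynomial (Fin n) ℂ) (G : Fin s → MvPolynomial (Fin n) ℂ),
    P.totalDegree ≤ d ∧ AO ρ P ∧ (∀ j, (G j).totalDegree ≤ d) ∧ (∀ j, GP K w (G j)) ∧
      T = P * ∏ j, G j

/-- The minors of the Jacobian matrix. -/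
noncomputable def jac {n r : ℕ} (T : Fin r → MvPolynomial (Fin n) ℂ) (I : Fin r → Fin n) :
    MvPolynomial (Fin n) ℂ :=
  Matrix.det (Matrix.of fun b i : Fin r => pderiv (I b) (T i))

/-- `u (β + z y)` as a polynomial in `z`. -/
noncomputable def tay {n : ℕ} (β : Fin n → ℂ) :
    MvPolynomial (Fin n) ℂ →ₐ[ℂ] Polynomial (MvPolynomial (Fin n) ℂ) :=
  aeval fun i => Polynomial.C (C (β i)) + Polynomial.X * Polynomial.C (X i)

/-- The coefficient of `z ^ m` in `u (β + z y)`, a polynomial in `y`. -/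
noncomputable def tc {n : ℕ} (β : Fin n → ℂ) (m : ℕ) (u : MvPolynomial (Fin n) ℂ) :
    MvPolynomial (Fin n) ℂ :=
  (tay β u).coeff m

/-- An inverse of `G` up to order `N` at `β` (if `G (β) ≠ 0`). -/
noncomputable def inv {n : ℕ} (N : ℕ) (β : Fin n → ℂ) (G : MvPolynomial (Fin n) ℂ) :
    MvPolynomial (Fin n) ℂ :=
  C (eval β G)⁻¹ * ∑ a ∈ Finset.range N, (1 - C (eval β G)⁻¹ * G) ^ a

/-- The product of all the inverses. -/
noncomputable def invp {n r s : ℕ} (N : ℕ) (β : Fin n → ℂ)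
    (G : Fin r → Fin s → MvPolynomial (Fin n) ℂ) : MvPolynomial (Fin n) ℂ :=
  ∏ i, ∏ j, inv N β (G i j)

/-- The bound for the any-order rank of `tc β m (jac T I * invp N β G)`, `m < N`, `r ≤ k`. -/
def rkV (K w k s ρ N : ℕ) : ℕ :=
  N * (k.factorial * (ρ * (1 + s * (N * (N * K + 1) ^ w)) + 1) ^ k)

/-- Convergence of all coefficients. -/
def PT {n : ℕ} (F : Ultrafilter ℕ) (u : ℕ → MvPolynomial (Fin n) ℂ)
    (v : MvPolynomial (Fin n) ℂ) : Prop :=
  ∀ m, Tendsto (fun t => coeff m (u t)) F (𝓝 (coeff m v))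

/-- The curve through the points of the list `L` (Newton interpolation, natural parameter). -/
def newt {n : ℕ} (L : List (Fin n → ℤ)) (z : ℕ) (l : Fin n) : ℤ :=
  ∑ j ∈ Finset.range L.length, (z.choose j : ℤ) *
    ∑ i ∈ Finset.range (j + 1), (-1) ^ (j - i) * (j.choose i : ℤ) * (L.getD i 0) l

end JB
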