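import Pool.Agent.Helper53.JB.Rank
import Pool.Agent.Helper53.JB.Defs

/-!
# JB: the polynomials `tc β m u` (complete proofs)
-/

namespace JB

open MvPolynomial AOR

/-- `u (β + z y)` as a polynomial in `z`, for a point `y`. -/
noncomputable def lin {n : ℕ} (β y : Fin n → ℂ) : MvPolynomial (Fin n) ℂ →ₐ[ℂ] Polynomial ℂ :=
  aeval fun i => Polynomial.C (β i) + Polynomial.X * Polynomial.C (y i)

theorem lin_C {n : ℕ} (β y : Fin n → ℂ) (c : ℂ) : lin β y (C c) = Polynomial.C c := by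
  rw [lin, MvPolynomial.aeval_C]
  rfl

theorem lin_X {n : ℕ} (β y : Fin n → ℂ) (i : Fin n) :
    lin β y (X i) = Polynomial.C (β i) + Polynomial.X * Polynomial.C (y i) := by
  rw [lin, aeval_X]

theorem map_tay {n : ℕ} (β y : Fin n → ℂ) (u : MvPolynomial (Fin n) ℂ) :
    (tay β u).map (eval y) = lin β y u := by
  have h : (Polynomial.mapRingHom (eval y)).comp
      (tay β : MvPolynomial (Fin n) ℂ →+* Polynomial (MvPolynomial (Fin n) ℂ)) =
      (lin β y : MvPolynomial (Fin n) ℂ →+* Polynomial ℂ) := by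
    apply MvPolynomial.ringHom_ext
    · intro c
      simp [tay, lin, MvPolynomial.algebraMap_eq, Polynomial.algebraMap_apply]
    · intro i
      simp [tay, lin]
  exact congrArg (fun φ => φ u) h

theorem eval_tc {n : ℕ} (β y : Fin n → ℂ) (m : ℕ) (u : MvPolynomial (Fin n) ℂ) :
    eval y (tc β m u) = (lin β y u).coeff m := by
  rw [← map_tay, Polynomial.coeff_map, tc]

theorem lin_eval {n : ℕ} (β y : Fin n → ℂ) (u : MvPolynomial (Fin n) ℂ) (z : ℂ) :
    (lin β y u).eval z = eval (fun i => β i + z * y i) u := by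
  have h : (Polynomial.evalRingHom z).comp
      (lin β y : MvPolynomial (Fin n) ℂ →+* Polynomial ℂ) = eval (fun i => β i + z * y i) := by
    apply MvPolynomial.ringHom_ext
    · intro c
      simp [lin]
    · intro i
      simp only [RingHom.comp_apply, RingHom.coe_coe, lin_X, Polynomial.coe_evalRingHom,
        Polynomial.eval_add, Polynomial.eval_mul, Polynomial.eval_C, Polynomial.eval_X, eval_X]
  exact congrArg (fun φ => φ u) h

theorem tc_add {n : ℕ} (β : Fin n → ℂ) (m : ℕ) (u v : MvPolynomial (Fin n) ℂ) :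
    tc β m (u + v) = tc β m u + tc β m v := by
  rw [tc, map_add, Polynomial.coeff_add, tc, tc]

theorem tc_zero {n : ℕ} (β : Fin n → ℂ) (m : ℕ) : tc β m (0 : MvPolynomial (Fin n) ℂ) = 0 := by
  rw [tc, map_zero, Polynomial.coeff_zero]

theorem tc_sum {n : ℕ} {ι : Type*} (β : Fin n → ℂ) (m : ℕ) (s : Finset ι)
    (u : ι → MvPolynomial (Fin n) ℂ) : tc β m (∑ i ∈ s, u i) = ∑ i ∈ s, tc β m (u i) := by
  rw [tc, map_sum, Polynomial.finsetSum_coeff]
  rfl

theorem tc_mul {n : ℕ} (β : Fin n → ℂ) (m : ℕ) (u v : MvPolynomial (Fin n) ℂ) :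
    tc β m (u * v) = ∑ p ∈ Finset.HasAntidiagonal.antidiagonal m, tc β p.1 u * tc β p.2 v := by
  rw [tc, map_mul, Polynomial.coeff_mul]
  rfl

theorem tay_C {n : ℕ} (β : Fin n → ℂ) (c : ℂ) : tay β (C c) = Polynomial.C (C c) := by
  rw [tay, MvPolynomial.aeval_C]
  rfl

theorem tc_C_mul {n : ℕ} (β : Fin n → ℂ) (m : ℕ) (c : ℂ) (u : MvPolynomial (Fin n) ℂ) :
    tc β m (C c * u) = C c * tc β m u := by
  rw [tc, map_mul, tay_C, Polynomial.coeff_C_mul, tc]

theorem tc_const {n : ℕ} (β : Fin n → ℂ) (u : MvPolynomial (Fin n) ℂ) :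
    tc β 0 u = C (eval β u) := by
  apply MvPolynomial.funext
  intro y
  rw [eval_tc, eval_C, Polynomial.coeff_zero_eq_eval_zero, lin_eval]
  congr 2
  funext i
  simp

end JB
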