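import Pool.Agent.Helper53.JB.Basic

/-!
# JB-A3: the any-order rank is a closed condition

Compare `Pool/Agent/Helper5/BD/Closed.lean` (the same proof for the translation rank).
Fix `S`. For a polynomial `u` put `Φ u x y = eval (S.piecewise x y) u`. Take `q` maximal such that there are points
`a b : Fin q → (Fin n → ℂ)` with `det (Φ g (a i) (b j))_{i, j < q} ≠ 0` (`q = 0` works). Then `q ≤ R`: for `q > R` the determinants
`det (Φ (f t) (a i) (b j))` vanish for the `t` with `AO R (f t)` (the matrix is a product of a `q × R` and an `R × q` matrix) and converge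
to `det (Φ g (a i) (b j))` (`Continuous.matrix_det` or finite sums of finite products), so the limit is `0`. With
`N = (Φ g (a i) (b j))_{i,j<q}` invertible and all bordered determinants `0` (`Matrix.det_fromBlocks₁₁`):
`Φ g x y = ∑ i j, Φ g x (b j) * (N⁻¹) j i * Φ g (a i) y`. So the families
`A i = ∑ j, C (N⁻¹ j i) * (g with the variables off S put equal to b j)`, `B i = g with the variables in S put equal to a i`
(`aeval (fun l => if l ∈ S then X l else C (b j l)) g` etc.) show `AO q g`; `ao_mono`.
* `gp_closed`: apply `ao_closed` to the powers (`eval x (f t ^ l) = (eval x (f t)) ^ l`).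
-/

namespace JB

open MvPolynomial AOR Filter Topology

private noncomputable def offS {n : ℕ} (S : Finset (Fin n)) (b : Fin n → ℂ)
    (g : MvPolynomial (Fin n) ℂ) : MvPolynomial (Fin n) ℂ :=
  aeval (fun l => if l ∈ S then X l else C (b l)) g

private noncomputable def onS {n : ℕ} (S : Finset (Fin n)) (a : Fin n → ℂ)
    (g : MvPolynomial (Fin n) ℂ) : MvPolynomial (Fin n) ℂ :=
  aeval (fun l => if l ∈ S then C (a l) else X l) g

private theorem eval_offS {n : ℕ} (S : Finset (Fin n)) (b x : Fin n → ℂ)
    (g : MvPolynomial (Fin n) ℂ) : eval x (offS S b g) = eval (S.piecewise x b) g := by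
  unfold offS
  have h : (eval x).comp ((aeval (fun l => if l ∈ S then X l else C (b l)) :
      MvPolynomial (Fin n) ℂ →ₐ[ℂ] MvPolynomial (Fin n) ℂ) : _ →+* _) =
      eval (S.piecewise x b) := by
    apply MvPolynomial.ringHom_ext
    · intro c
      simp [MvPolynomial.algebraMap_eq]
    · intro i
      by_cases hi : i ∈ S <;> simp [hi]
  exact RingHom.congr_fun h g

private theorem eval_onS {n : ℕ} (S : Finset (Fin n)) (a y : Fin n → ℂ)
    (g : MvPolynomial (Fin n) ℂ) : eval y (onS S a g) = eval (S.piecewise a y) g := by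
  unfold onS
  have h : (eval y).comp ((aeval (fun l => if l ∈ S then C (a l) else X l) :
      MvPolynomial (Fin n) ℂ →ₐ[ℂ] MvPolynomial (Fin n) ℂ) : _ →+* _) =
      eval (S.piecewise a y) := by
    apply MvPolynomial.ringHom_ext
    · intro c
      simp [MvPolynomial.algebraMap_eq]
    · intro i
      by_cases hi : i ∈ S <;> simp [hi]
  exact RingHom.congr_fun h g

private theorem det_zero {n R q : ℕ} {f : MvPolynomial (Fin n) ℂ} (hf : AO R f)
    (hq : R < q) (S : Finset (Fin n)) (a b : Fin q → Fin n → ℂ) :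
    Matrix.det (Matrix.of fun i j => eval (S.piecewise (a i) (b j)) f) = 0 := by
  obtain ⟨A, B, hAB⟩ := hf S
  by_contra hne
  have h1 : (Matrix.of fun i j => eval (S.piecewise (a i) (b j)) f) =
      (Matrix.of fun (i : Fin q) (k : Fin R) => eval (a i) (A k)) *
        (Matrix.of fun (k : Fin R) (j : Fin q) => eval (b j) (B k)) := by
    ext i j
    rw [Matrix.mul_apply]
    exact hAB (a i) (b j)
  have h2 := Matrix.rank_of_isUnit _ ((Matrix.isUnit_iff_isUnit_det _).2
    (isUnit_iff_ne_zero.2 hne))
  rw [h1] at h2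
  have h3 := Matrix.rank_mul_le_left
    (Matrix.of fun (i : Fin q) (k : Fin R) => eval (a i) (A k))
    (Matrix.of fun (k : Fin R) (j : Fin q) => eval (b j) (B k))
  have h4 := Matrix.rank_le_width
    (Matrix.of fun (i : Fin q) (k : Fin R) => eval (a i) (A k))
  rw [h2, Fintype.card_fin] at h3
  omega

theorem ao_closed {n R : ℕ} (F : Ultrafilter ℕ) (f : ℕ → MvPolynomial (Fin n) ℂ)
    (g : MvPolynomial (Fin n) ℂ) (h : ∀ᶠ t in (F : Filter ℕ), AO R (f t))
    (hlim : ∀ x, Tendsto (fun t => eval x (f t)) F (𝓝 (eval x g))) : AO R g := by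
  classical
  refine ao_of fun S => ?_
  -- the determinants of size larger than R vanish
  have hdet : ∀ q : ℕ, R < q → ∀ a b : Fin q → Fin n → ℂ,
      Matrix.det (Matrix.of fun i j => eval (S.piecewise (a i) (b j)) g) = 0 := by
    intro q hq a b
    have h1 : Tendsto (fun t => Matrix.det
        (Matrix.of fun i j => eval (S.piecewise (a i) (b j)) (f t))) F
        (𝓝 (Matrix.det (Matrix.of fun i j => eval (S.piecewise (a i) (b j)) g))) := by
      simp only [Matrix.det_apply]
      refine tendsto_finsetSum _ fun σ _ => ?_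
      refine Tendsto.const_smul ?_ _
      refine tendsto_finsetProd _ fun i _ => ?_
      exact hlim _
    have h2 : Tendsto (fun t => Matrix.det
        (Matrix.of fun i j => eval (S.piecewise (a i) (b j)) (f t))) F (𝓝 0) := by
      refine Tendsto.congr' ?_ tendsto_const_nhds
      filter_upwards [h] with t ht
      exact (det_zero ht hq S a b).symm
    exact tendsto_nhds_unique h1 h2
  -- a maximal q
  obtain ⟨q, ⟨a, b, hab⟩, hmax⟩ : ∃ q : ℕ, (∃ a b : Fin q → Fin n → ℂ,
      Matrix.det (Matrix.of fun i j => eval (S.piecewise (a i) (b j)) g) ≠ 0) ∧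
      ∀ a b : Fin (q + 1) → Fin n → ℂ,
        Matrix.det (Matrix.of fun i j => eval (S.piecewise (a i) (b j)) g) = 0 := by
    by_contra hcon
    push Not at hcon
    have hall : ∀ q : ℕ, ∃ a b : Fin q → Fin n → ℂ,
        Matrix.det (Matrix.of fun i j => eval (S.piecewise (a i) (b j)) g) ≠ 0 := by
      intro q
      induction q with
      | zero => exact ⟨Fin.elim0, Fin.elim0, by simp⟩
      | succ q ih => exact hcon q ih
    obtain ⟨a, b, hab⟩ := hall (R + 1)
    exact hab (hdet (R + 1) (Nat.lt_succ_self R) a b)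
  have hqR : q ≤ R := by
    by_contra hcon
    exact hab (hdet q (by omega) a b)
  set N : Matrix (Fin q) (Fin q) ℂ :=
    Matrix.of fun i j => eval (S.piecewise (a i) (b j)) g with hN
  let _ : Invertible N := Matrix.invertibleOfIsUnitDet N (isUnit_iff_ne_zero.2 hab)
  refine ⟨Fin q, inferInstance, fun i => ∑ j, C ((⅟N) j i) * offS S (b j) g,
    fun i => onS S (a i) g, by rw [Fintype.card_fin]; exact hqR, fun x y => ?_⟩
  have h0 : Matrix.det (Matrix.fromBlocks N (Matrix.of fun (i : Fin q) (_ : Unit) =>
      eval (S.piecewise (a i) y) g)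
      (Matrix.of fun (_ : Unit) (j : Fin q) => eval (S.piecewise x (b j)) g)
      (Matrix.of fun (_ : Unit) (_ : Unit) => eval (S.piecewise x y) g)) = 0 := by
    have e : Fin (q + 1) ≃ Fin q ⊕ Unit :=
      (Fintype.equivFinOfCardEq (by simp)).symm
    rw [← Matrix.det_submatrix_equiv_self e, ← hmax (Sum.elim a (fun _ => x) ∘ e)
      (Sum.elim b (fun _ => y) ∘ e)]
    congr 1
    ext i j
    simp only [Matrix.submatrix_apply, Matrix.of_apply, Function.comp_apply]
    rcases e i with i' | i' <;> rcases e j with j' | j' <;> simp [hN]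
  rw [Matrix.det_fromBlocks₁₁] at h0
  have h1 := (mul_eq_zero.1 h0).resolve_left hab
  rw [Matrix.det_unique] at h1
  simp only [Matrix.sub_apply, Matrix.of_apply, Matrix.mul_apply, sub_eq_zero] at h1
  rw [h1]
  refine Finset.sum_congr rfl fun i _ => ?_
  rw [map_sum, eval_onS]
  congr 1
  refine Finset.sum_congr rfl fun j _ => ?_
  rw [map_mul, eval_C, eval_offS, mul_comm]

theorem gp_closed {n w K : ℕ} (F : Ultrafilter ℕ) (f : ℕ → MvPolynomial (Fin n) ℂ)
    (g : MvPolynomial (Fin n) ℂ) (h : ∀ᶠ t in (F : Filter ℕ), GP K w (f t))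
    (hlim : ∀ x, Tendsto (fun t => eval x (f t)) F (𝓝 (eval x g))) : GP K w g := by
  intro l
  refine ao_closed F (fun t => f t ^ l) (g ^ l) ?_ fun x => ?_
  · filter_upwards [h] with t ht
    exact ht l
  · simp only [map_pow]
    exact (hlim x).pow l

end JB
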