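import Pool.Agent.Helper53.JB.Basic
import Pool.Agent.Helper5.BD.Limit

/-!
# JB-A8: limits of sums, products, powers, of the inverses and of the Taylor coefficients

`PT F u v` (coefficientwise convergence; the same as `Pool.Agent.Helper5.BD.PTendsto`). The coefficients of a product are finite sums
(`MvPolynomial.coeff_mul`). `PT.eval`, `PT.eval_tc`: linear functionals, `Pool.Agent.Helper5.BD.tendsto_linear` (bounded degrees).
`PT.inv`: `eval β (u t) → eval β v ≠ 0`, `Tendsto.inv₀`, then `PT.C`, `PT.sum`, `PT.mul`, `PT.pow`.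
-/

namespace JB

open MvPolynomial AOR Filter Topology

theorem PT.const {n : ℕ} (F : Ultrafilter ℕ) (u : MvPolynomial (Fin n) ℂ) :
    PT F (fun _ => u) u :=
  fun _ => tendsto_const_nhds

theorem PT.add {n : ℕ} {F : Ultrafilter ℕ} {u u' : ℕ → MvPolynomial (Fin n) ℂ}
    {v v' : MvPolynomial (Fin n) ℂ} (h : PT F u v) (h' : PT F u' v') :
    PT F (fun t => u t + u' t) (v + v') := by
  intro m
  simp only [coeff_add]
  exact (h m).add (h' m)

theorem PT.mul {n : ℕ} {F : Ultrafilter ℕ} {u u' : ℕ → MvPolynomial (Fin n) ℂ}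
    {v v' : MvPolynomial (Fin n) ℂ} (h : PT F u v) (h' : PT F u' v') :
    PT F (fun t => u t * u' t) (v * v') := by
  classical
  intro m
  simp only [coeff_mul]
  exact tendsto_finsetSum _ fun p _ => (h p.1).mul (h' p.2)

theorem PT.sum {n : ℕ} {ι : Type*} {F : Ultrafilter ℕ} (s : Finset ι)
    {u : ℕ → ι → MvPolynomial (Fin n) ℂ} {v : ι → MvPolynomial (Fin n) ℂ}
    (h : ∀ i ∈ s, PT F (fun t => u t i) (v i)) :
    PT F (fun t => ∑ i ∈ s, u t i) (∑ i ∈ s, v i) := by
  classical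
  induction s using Finset.induction_on with
  | empty =>
    simp only [Finset.sum_empty]
    exact PT.const F 0
  | insert a s ha ih =>
    simp only [Finset.sum_insert ha]
    exact PT.add (h a (Finset.mem_insert_self a s))
      (ih fun i hi => h i (Finset.mem_insert_of_mem hi))

theorem PT.prod {n : ℕ} {ι : Type*} {F : Ultrafilter ℕ} (s : Finset ι)
    {u : ℕ → ι → MvPolynomial (Fin n) ℂ} {v : ι → MvPolynomial (Fin n) ℂ}
    (h : ∀ i ∈ s, PT F (fun t => u t i) (v i)) :
    PT F (fun t => ∏ i ∈ s, u t i) (∏ i ∈ s, v i) := by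
  classical
  induction s using Finset.induction_on with
  | empty =>
    simp only [Finset.prod_empty]
    exact PT.const F 1
  | insert a s ha ih =>
    simp only [Finset.prod_insert ha]
    exact PT.mul (h a (Finset.mem_insert_self a s))
      (ih fun i hi => h i (Finset.mem_insert_of_mem hi))

theorem PT.pow {n : ℕ} {F : Ultrafilter ℕ} {u : ℕ → MvPolynomial (Fin n) ℂ}
    {v : MvPolynomial (Fin n) ℂ} (h : PT F u v) (q : ℕ) : PT F (fun t => u t ^ q) (v ^ q) := by
  induction q with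
  | zero =>
    simp only [pow_zero]
    exact PT.const F 1
  | succ q ih =>
    simp only [pow_succ]
    exact PT.mul ih h

theorem PT.C {n : ℕ} {F : Ultrafilter ℕ} {c : ℕ → ℂ} {d : ℂ} (h : Tendsto c F (𝓝 d)) :
    PT (n := n) F (fun t => MvPolynomial.C (c t)) (MvPolynomial.C d) := by
  classical
  intro m
  simp only [coeff_C]
  split_ifs
  · exact h
  · exact tendsto_const_nhds

theorem PT.eval {n D : ℕ} {F : Ultrafilter ℕ} {u : ℕ → MvPolynomial (Fin n) ℂ}
    {v : MvPolynomial (Fin n) ℂ} (hD : ∀ᶠ t in (F : Filter ℕ), (u t).totalDegree ≤ D)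
    (hv : v.totalDegree ≤ D) (h : PT F u v) (x : Fin n → ℂ) :
    Tendsto (fun t => MvPolynomial.eval x (u t)) F (𝓝 (MvPolynomial.eval x v)) :=
  Pool.Agent.Helper5.BD.tendsto_linear F hD hv h (MvPolynomial.aeval x).toLinearMap

/-- the linear functional `u ↦ eval x (tc β m u)` -/
private noncomputable def tcLin {n : ℕ} (β x : Fin n → ℂ) (m : ℕ) :
    MvPolynomial (Fin n) ℂ →ₗ[ℂ] ℂ :=
  (Polynomial.lcoeff ℂ m).comp (lin β x).toLinearMap

theorem PT.eval_tc {n D : ℕ} {F : Ultrafilter ℕ} {u : ℕ → MvPolynomial (Fin n) ℂ}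
    {v : MvPolynomial (Fin n) ℂ} (hD : ∀ᶠ t in (F : Filter ℕ), (u t).totalDegree ≤ D)
    (hv : v.totalDegree ≤ D) (h : PT F u v) (β x : Fin n → ℂ) (m : ℕ) :
    Tendsto (fun t => MvPolynomial.eval x (tc β m (u t))) F
      (𝓝 (MvPolynomial.eval x (tc β m v))) := by
  have h1 := Pool.Agent.Helper5.BD.tendsto_linear F hD hv h (tcLin β x m)
  have h2 : ∀ w : MvPolynomial (Fin n) ℂ, tcLin β x m w = MvPolynomial.eval x (tc β m w) := by
    intro w
    rw [JB.eval_tc]
    rfl
  simpa only [h2] using h1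

private theorem totalDegree_C_mul_le2 {n : ℕ} (c : ℂ) (u : MvPolynomial (Fin n) ℂ) :
    (MvPolynomial.C c * u).totalDegree ≤ u.totalDegree := by
  refine (totalDegree_mul _ _).trans ?_
  rw [totalDegree_C, zero_add]

private theorem totalDegree_one_sub {n d : ℕ} (c : ℂ) {G : MvPolynomial (Fin n) ℂ}
    (h : G.totalDegree ≤ d) : (1 - MvPolynomial.C c * G).totalDegree ≤ d := by
  refine (totalDegree_sub _ _).trans ?_
  rw [totalDegree_one]
  exact max_le (Nat.zero_le _) ((totalDegree_C_mul_le2 _ _).trans h)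

theorem totalDegree_inv_le {n d : ℕ} (N : ℕ) (β : Fin n → ℂ) {G : MvPolynomial (Fin n) ℂ}
    (h : G.totalDegree ≤ d) : (inv N β G).totalDegree ≤ N * d := by
  unfold inv
  refine (totalDegree_C_mul_le2 _ _).trans ?_
  refine totalDegree_finsetSum_le fun a ha => ?_
  refine (totalDegree_pow _ _).trans ?_
  exact Nat.mul_le_mul (Finset.mem_range.mp ha).le (totalDegree_one_sub _ h)

theorem totalDegree_invp_le {n r s d : ℕ} (N : ℕ) (β : Fin n → ℂ)
    {G : Fin r → Fin s → MvPolynomial (Fin n) ℂ} (h : ∀ i j, (G i j).totalDegree ≤ d) :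
    (invp N β G).totalDegree ≤ r * (s * (N * d)) := by
  unfold invp
  refine (totalDegree_finsetProd _ _).trans ?_
  refine (Finset.sum_le_card_nsmul _ _ (s * (N * d)) (fun i _ => ?_)).trans ?_
  · refine (totalDegree_finsetProd _ _).trans ?_
    refine (Finset.sum_le_card_nsmul _ _ (N * d) (fun j _ => ?_)).trans ?_
    · exact totalDegree_inv_le N β (h i j)
    · rw [Finset.card_univ, Fintype.card_fin, smul_eq_mul]
  · rw [Finset.card_univ, Fintype.card_fin, smul_eq_mul]

theorem PT.inv {n D : ℕ} {F : Ultrafilter ℕ} {u : ℕ → MvPolynomial (Fin n) ℂ}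
    {v : MvPolynomial (Fin n) ℂ} (hD : ∀ᶠ t in (F : Filter ℕ), (u t).totalDegree ≤ D)
    (hv : v.totalDegree ≤ D) (h : PT F u v) {β : Fin n → ℂ}
    (hβ : MvPolynomial.eval β v ≠ 0) (N : ℕ) :
    PT F (fun t => JB.inv N β (u t)) (JB.inv N β v) := by
  have h1 : Tendsto (fun t => (MvPolynomial.eval β (u t))⁻¹) F
      (𝓝 (MvPolynomial.eval β v)⁻¹) := (PT.eval hD hv h β).inv₀ hβ
  have h2 : PT (n := n) F (fun t => MvPolynomial.C (MvPolynomial.eval β (u t))⁻¹)
      (MvPolynomial.C (MvPolynomial.eval β v)⁻¹) := PT.C h1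
  have h3 : PT (n := n) F (fun t => - (MvPolynomial.C (MvPolynomial.eval β (u t))⁻¹ * u t))
      (- (MvPolynomial.C (MvPolynomial.eval β v)⁻¹ * v)) := by
    intro m
    simp only [coeff_neg]
    exact ((PT.mul h2 h) m).neg
  have h4 := PT.add (PT.const (n := n) F 1) h3
  unfold JB.inv
  refine PT.mul h2 (PT.sum _ fun a _ => ?_)
  have h5 := PT.pow h4 a
  simpa only [← sub_eq_add_neg] using h5

theorem PT.invp {n r s D : ℕ} {F : Ultrafilter ℕ} {u : ℕ → Fin r → Fin s → MvPolynomial (Fin n) ℂ}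
    {v : Fin r → Fin s → MvPolynomial (Fin n) ℂ}
    (hD : ∀ᶠ t in (F : Filter ℕ), ∀ i j, (u t i j).totalDegree ≤ D)
    (hv : ∀ i j, (v i j).totalDegree ≤ D) (h : ∀ i j, PT F (fun t => u t i j) (v i j))
    {β : Fin n → ℂ} (hβ : ∀ i j, MvPolynomial.eval β (v i j) ≠ 0) (N : ℕ) :
    PT F (fun t => JB.invp N β (u t)) (JB.invp N β v) := by
  unfold JB.invp
  refine PT.prod _ fun i _ => PT.prod _ fun j _ => ?_
  refine PT.inv (D := D) ?_ (hv i j) (h i j) (hβ i j) N
  filter_upwards [hD] with t ht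
  exact ht i j

end JB
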