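import Pool.Agent.Helper53.JB.GPL

/-!
# JB-A7: normalisation of a term, degrees

* `normTerm`: divide each `G j` by its coefficient of largest absolute value (`T ≠ 0` makes all `G j ≠ 0`), multiply `P` by the product of
  these coefficients (`ao_C_mul`, `gp_C_mul`; a constant factor does not increase the degree).
* `totalDegree_jac`: `Matrix.det_apply'`/`det_apply`, `totalDegree_finsetSum_le`, `totalDegree_finsetProd_le`,
  `(pderiv b u).totalDegree ≤ u.totalDegree` (prove it: sum over the monomials, `pderiv_monomial`; or look for a lemma in Mathlib).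
-/

namespace JB

open MvPolynomial AOR

private theorem totalDegree_C_mul_le' {n : ℕ} (c : ℂ) (u : MvPolynomial (Fin n) ℂ) :
    (C c * u).totalDegree ≤ u.totalDegree := by
  refine (totalDegree_mul _ _).trans ?_
  rw [totalDegree_C, zero_add]

theorem normTerm {n K w s d ρ : ℕ} {T : MvPolynomial (Fin n) ℂ} (h : IsTerm K w s d ρ T)
    (h0 : T ≠ 0) :
    ∃ (P : MvPolynomial (Fin n) ℂ) (G : Fin s → MvPolynomial (Fin n) ℂ),
      P.totalDegree ≤ d ∧ AO ρ P ∧ (∀ j, (G j).totalDegree ≤ d) ∧ (∀ j, GP K w (G j)) ∧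
      (∀ j m, ‖coeff m (G j)‖ ≤ 1) ∧ (∀ j, ∃ m, ‖coeff m (G j)‖ = 1) ∧ T = P * ∏ j, G j := by
  obtain ⟨P, G, hPd, hPr, hGd, hGP, hT⟩ := h
  have hG0 : ∀ j, G j ≠ 0 := by
    intro j hj
    apply h0
    rw [hT, Finset.prod_eq_zero (Finset.mem_univ j) hj, mul_zero]
  have hmax : ∀ j, ∃ m : Fin n →₀ ℕ, coeff m (G j) ≠ 0 ∧
      ∀ m', ‖coeff m' (G j)‖ ≤ ‖coeff m (G j)‖ := by
    intro j
    have hne : (G j).support.Nonempty := by
      rw [Finset.nonempty_iff_ne_empty]
      intro he
      exact hG0 j (support_eq_empty.mp he)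
    obtain ⟨m, hm, hm'⟩ := Finset.exists_max_image (G j).support
      (fun m => ‖coeff m (G j)‖) hne
    refine ⟨m, mem_support_iff.mp hm, fun m' => ?_⟩
    by_cases h1 : m' ∈ (G j).support
    · exact hm' m' h1
    · rw [notMem_support_iff.mp h1, norm_zero]
      exact norm_nonneg _
  choose m hm0 hm using hmax
  refine ⟨C (∏ j, coeff (m j) (G j)) * P, fun j => C (coeff (m j) (G j))⁻¹ * G j,
    (totalDegree_C_mul_le' _ _).trans hPd, ao_C_mul _ hPr,
    fun j => (totalDegree_C_mul_le' _ _).trans (hGd j), fun j => gp_C_mul _ (hGP j),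
    fun j m' => ?_, fun j => ⟨m j, ?_⟩, ?_⟩
  · rw [coeff_C_mul, norm_mul, norm_inv]
    have h1 := hm j m'
    have h2 : 0 < ‖coeff (m j) (G j)‖ := norm_pos_iff.mpr (hm0 j)
    rw [inv_mul_le_iff₀ h2, mul_one]
    exact h1
  · rw [coeff_C_mul, inv_mul_cancel₀ (hm0 j), norm_one]
  · rw [Finset.prod_mul_distrib, ← map_prod, hT]
    have h1 : (C (∏ j, coeff (m j) (G j)) : MvPolynomial (Fin n) ℂ) *
        C (∏ j, (coeff (m j) (G j))⁻¹) = 1 := by
      rw [← map_mul, ← Finset.prod_mul_distrib,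
        Finset.prod_eq_one (fun j _ => mul_inv_cancel₀ (hm0 j)), map_one]
    calc P * ∏ j, G j = (C (∏ j, coeff (m j) (G j)) *
        C (∏ j, (coeff (m j) (G j))⁻¹)) * (P * ∏ j, G j) := by rw [h1, one_mul]
      _ = _ := by ring

theorem IsTerm.totalDegree_le {n K w s d ρ : ℕ} {T : MvPolynomial (Fin n) ℂ}
    (h : IsTerm K w s d ρ T) : T.totalDegree ≤ d * (s + 1) := by
  obtain ⟨P, G, hPd, -, hGd, -, hT⟩ := h
  rw [hT]
  refine (totalDegree_mul _ _).trans ?_
  have h1 : (∏ j, G j).totalDegree ≤ s * d := by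
    refine (totalDegree_finsetProd _ _).trans ?_
    refine (Finset.sum_le_card_nsmul _ _ d (fun j _ => hGd j)).trans ?_
    rw [Finset.card_univ, Fintype.card_fin, smul_eq_mul]
  calc P.totalDegree + (∏ j, G j).totalDegree ≤ d + s * d := Nat.add_le_add hPd h1
    _ = d * (s + 1) := by ring

theorem totalDegree_pderiv_le {n : ℕ} (b : Fin n) (u : MvPolynomial (Fin n) ℂ) :
    (pderiv b u).totalDegree ≤ u.totalDegree := by
  classical
  conv_lhs => rw [u.as_sum, map_sum]
  refine totalDegree_finsetSum_le fun m hm => ?_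
  rw [pderiv_monomial]
  refine (totalDegree_monomial_le _ _).trans ?_
  refine le_trans ?_ (le_totalDegree hm)
  have h1 : m - Finsupp.single b 1 ≤ m := tsub_le_self
  have h2 : ∀ m' : Fin n →₀ ℕ, (m'.sum fun _ e => e) = ∑ i, m' i := by
    intro m'
    exact Finsupp.sum_fintype _ _ (fun _ => rfl)
  have h3 := h2 (m - Finsupp.single b 1)
  have h4 := h2 m
  change ((m - Finsupp.single b 1).sum fun _ e => e) ≤ (m.sum fun _ e => e)
  rw [h3, h4]
  exact Finset.sum_le_sum fun i _ => h1 i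

theorem totalDegree_jac {n r q : ℕ} {T : Fin r → MvPolynomial (Fin n) ℂ}
    (h : ∀ i, (T i).totalDegree ≤ q) (I : Fin r → Fin n) : (jac T I).totalDegree ≤ r * q := by
  unfold jac
  rw [Matrix.det_apply]
  refine totalDegree_finsetSum_le fun σ _ => ?_
  have h1 : (∏ i, (Matrix.of fun b i : Fin r => pderiv (I b) (T i)) (σ i) i).totalDegree ≤
      r * q := by
    refine (totalDegree_finsetProd _ _).trans ?_
    refine (Finset.sum_le_card_nsmul _ _ q (fun i _ => ?_)).trans ?_
    · exact (totalDegree_pderiv_le _ _).trans (h i)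
    · rw [Finset.card_univ, Fintype.card_fin, smul_eq_mul]
  rcases Int.units_eq_one_or (Equiv.Perm.sign σ) with hs | hs
  · rw [hs, one_smul]
    exact h1
  · rw [hs, Units.neg_smul, one_smul, totalDegree_neg]
    exact h1

end JB
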