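import Pool.Agent.Helper53.JB.Minor
import Pool.Agent.Helper53.JB.Closed
import Pool.Agent.Helper53.JB.Norm
import Pool.Agent.Helper53.JB.LimInv
import Pool.Agent.Helper5.BD.LimitB

/-!
# JB-A10 (helper53): the minors at points where the factors do not vanish

For the limit `M` of multiples of a minor there are limit factors `G i j ≠ 0` such that for every `β` with all `G i j (β) ≠ 0` the
lowest nonzero Taylor component of `M` at `β` has small any-order rank.
-/

namespace JB

open MvPolynomial AOR Filter Topology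

/-- The data of a normalised term. -/
private def Good {n : ℕ} (K w s d ρ : ℕ) (T : MvPolynomial (Fin n) ℂ)
    (q : MvPolynomial (Fin n) ℂ × (Fin s → MvPolynomial (Fin n) ℂ)) : Prop :=
  q.1.totalDegree ≤ d ∧ AO ρ q.1 ∧ (∀ j, (q.2 j).totalDegree ≤ d) ∧ (∀ j, GP K w (q.2 j)) ∧
    (∀ j m, ‖coeff m (q.2 j)‖ ≤ 1) ∧ (∀ j, ∃ m, ‖coeff m (q.2 j)‖ = 1) ∧ T = q.1 * ∏ j, q.2 j

private theorem low {n : ℕ} {β : Fin n → ℂ} {M : MvPolynomial (Fin n) ℂ}
    (Q : MvPolynomial (Fin n) ℂ) {m : ℕ} (h : ∀ l < m, tc β l M = 0) :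
    tc β m (M * Q) = tc β m M * C (eval β Q) := by
  rw [tc_mul, Finset.sum_eq_single (m, 0)]
  · rw [tc_const]
  · intro p hp hne
    rw [Finset.HasAntidiagonal.mem_antidiagonal] at hp
    have h1 : p.1 < m := by
      rcases Nat.lt_or_ge p.1 m with h2 | h2
      · exact h2
      · exfalso
        apply hne
        ext
        · show p.1 = m
          omega
        · show p.2 = 0
          omega
    rw [h p.1 h1, zero_mul]
  · intro hne
    exfalso
    apply hne
    rw [Finset.HasAntidiagonal.mem_antidiagonal]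
    rfl

theorem core {n k r s K w d ρ D : ℕ} (F : Ultrafilter ℕ) (hr : r ≤ k)
    (T : ℕ → Fin r → MvPolynomial (Fin n) ℂ)
    (hT : ∀ᶠ t in (F : Filter ℕ), ∀ i, IsTerm K w s d ρ (T t i))
    (h0 : ∀ᶠ t in (F : Filter ℕ), ∀ i, T t i ≠ 0) :
    ∃ G : Fin r → Fin s → MvPolynomial (Fin n) ℂ,
      (∀ i j, G i j ≠ 0 ∧ (G i j).totalDegree ≤ d ∧ GP K w (G i j)) ∧
      ∀ (c : ℕ → ℂ) (I : Fin r → Fin n) (M : MvPolynomial (Fin n) ℂ),
        PT F (fun t => C (c t) * jac (T t) I) M →
        (∀ᶠ t in (F : Filter ℕ), (C (c t) * jac (T t) I).totalDegree ≤ D) →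
        M.totalDegree ≤ D → M ≠ 0 → ∀ β : Fin n → ℂ, (∀ i j, eval β (G i j) ≠ 0) →
        ∃ m ≤ D, tc β m M ≠ 0 ∧ (tc β m M).totalDegree ≤ D ∧
          AO (rkV K w k s ρ (D + 1)) (tc β m M) := by
  classical
  -- the data
  obtain ⟨q, hq⟩ : ∃ q : ℕ → Fin r → MvPolynomial (Fin n) ℂ × (Fin s → MvPolynomial (Fin n) ℂ),
      ∀ᶠ t in (F : Filter ℕ), ∀ i, Good K w s d ρ (T t i) (q t i) := by
    refine ⟨fun t i => if h : ∃ q, Good K w s d ρ (T t i) q then h.choose else (0, 0), ?_⟩
    filter_upwards [hT, h0] with t h1 h2 i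
    obtain ⟨P, G, h3⟩ := normTerm (h1 i) (h2 i)
    have h : ∃ q, Good K w s d ρ (T t i) q := ⟨(P, G), h3⟩
    rw [dif_pos h]
    exact h.choose_spec
  -- the limits of the factors
  have hlim : ∀ i j, ∃ g : MvPolynomial (Fin n) ℂ, g.totalDegree ≤ d ∧
      PT F (fun t => (q t i).2 j) g := by
    intro i j
    exact Pool.Agent.Helper5.BD.exists_lim F (fun t => (q t i).2 j)
      (hq.mono fun t h => (h i).2.2.1 j) (hq.mono fun t h => (h i).2.2.2.2.1 j)
  choose G hGd hG using hlim
  have hGev : ∀ i j (x : Fin n → ℂ), Tendsto (fun t => eval x ((q t i).2 j)) F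
      (𝓝 (eval x (G i j))) := fun i j x =>
    PT.eval (hq.mono fun t h => (h i).2.2.1 j) (hGd i j) (hG i j) x
  refine ⟨G, fun i j => ⟨?_, hGd i j, ?_⟩, ?_⟩
  · obtain ⟨_, h⟩ := Pool.Agent.Helper5.BD.exists_ne_zero (ι := Unit) (D := d) F
      (fun t _ => (q t i).2 j) (fun _ => G i j) (hq.mono fun t h _ => (h i).2.2.1 j)
      (hq.mono fun t h => ⟨(), (h i).2.2.2.2.2.1 j⟩) (fun _ => hG i j)
    exact h
  · exact gp_closed F (fun t => (q t i).2 j) (G i j) (hq.mono fun t h => (h i).2.2.2.1 j)
      (hGev i j)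
  · intro c I M hM hD hMD hM0 β hβ
    have hβt : ∀ᶠ t in (F : Filter ℕ), ∀ i j, eval β ((q t i).2 j) ≠ 0 := by
      rw [eventually_all]
      intro i
      rw [eventually_all]
      intro j
      exact (hGev i j β).eventually_ne (hβ i j)
    -- the rank of the components of the product
    have hAO : ∀ m < D + 1, AO (rkV K w k s ρ (D + 1)) (tc β m (M * invp (D + 1) β G)) := by
      intro m hm
      refine ao_closed F (fun t => tc β m ((C (c t) * jac (T t) I) *
        invp (D + 1) β (fun i j => (q t i).2 j))) _ ?_ ?_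
      · filter_upwards [hq, hβt] with t h1 h2
        have h3 : T t = fun i => (q t i).1 * ∏ j, (q t i).2 j := by
          funext i
          exact (h1 i).2.2.2.2.2.2
        rw [mul_assoc, tc_C_mul]
        refine ao_C_mul _ ?_
        rw [h3]
        exact ao_V hr (fun i => (h1 i).2.1) (fun i j => (h1 i).2.2.2.1 j) h2 I hm
      · intro x
        refine PT.eval_tc (D := D + r * (s * ((D + 1) * d))) ?_ ?_
          (PT.mul hM (PT.invp (u := fun t i j => (q t i).2 j)
            (hq.mono fun t h i j => (h i).2.2.1 j) hGd hG hβ (D + 1))) β x m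
        · filter_upwards [hq, hD] with t h1 h2
          exact (totalDegree_mul _ _).trans
            (add_le_add h2 (totalDegree_invp_le _ _ fun i j => (h1 i).2.2.1 j))
        · exact (totalDegree_mul _ _).trans
            (add_le_add hMD (totalDegree_invp_le _ _ hGd))
    -- the lowest component
    have hex : ∃ m, tc β m M ≠ 0 := by
      by_contra hcon
      push Not at hcon
      refine hM0 (eq_zero_of_cg (N := D + 1) (β := β) (Nat.lt_succ_of_le hMD) fun m _ => ?_)
      rw [hcon m, tc_zero]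
    have hmD : Nat.find hex ≤ D := by
      by_contra hcon
      push Not at hcon
      exact Nat.find_spec hex (tc_eq_zero β (lt_of_le_of_lt hMD hcon))
    have hlow : ∀ l < Nat.find hex, tc β l M = 0 := by
      intro l hl
      by_contra hcon
      exact Nat.find_min hex hl hcon
    refine ⟨Nat.find hex, hmD, Nat.find_spec hex, (totalDegree_tc _ _ _).trans hmD, ?_⟩
    have hQ : eval β (invp (D + 1) β G) ≠ 0 := by
      unfold invp
      rw [map_prod]
      refine Finset.prod_ne_zero_iff.2 fun i _ => ?_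
      rw [map_prod]
      refine Finset.prod_ne_zero_iff.2 fun j _ => ?_
      have h1 := cg_inv (D + 1) (hβ i j) 0 (Nat.succ_pos D)
      rw [tc_const, tc_const, map_mul, map_one, C_inj] at h1
      intro h2
      rw [h2, mul_zero] at h1
      exact zero_ne_one h1
    have h1 := hAO (Nat.find hex) (Nat.lt_succ_of_le hmD)
    rw [low _ hlow] at h1
    have h2 := ao_C_mul (eval β (invp (D + 1) β G))⁻¹ h1
    have h3 : C (eval β (invp (D + 1) β G))⁻¹ *
        (tc β (Nat.find hex) M * C (eval β (invp (D + 1) β G))) = tc β (Nat.find hex) M := by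
      rw [mul_comm (tc β (Nat.find hex) M), ← mul_assoc, ← C_mul, inv_mul_cancel₀ hQ, C_1,
        one_mul]
    rw [h3] at h2
    exact h2

end JB
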