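import Pool.Agent.Helper53.JB.Basic

/-!
# JB-A2: derivatives, dilations and Taylor coefficients do not increase the any-order rank much

* `coeff_one_line`: `(aeval (fun i => Polynomial.C (x i) + if i = b then Polynomial.X else 0) u).coeff 1 = eval x (pderiv b u)`: both
  sides are additive in `u`, and satisfy the product rule (`Polynomial.coeff_mul`, `coeff 0 = eval x u`); `MvPolynomial.induction_on`.
* `ao_pderiv`: fix `S` with `A, B`. Suppose `b ∈ S` (the other case is symmetric). For fixed `x, y` the polynomials in `t`
  `f (S.piecewise (x + t e_b) y)` and `∑ k, A k (x + t e_b) * eval y (B k)` agree at all `t` (`Polynomial.funext`;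
  `S.piecewise (x + t e_b) y = S.piecewise x y + t e_b` as `b ∈ S`); compare the coefficients of `t`:
  `eval (S.piecewise x y) (pderiv b f) = ∑ k, eval x (pderiv b (A k)) * eval y (B k)`.
* `ao_scale`: `eval x (aeval (fun i => C c * X i) u) = eval (fun i => c * x i) u`, `c * S.piecewise x y = S.piecewise (c * x) (c * y)`.
* `ao_tc`: index type `Fin R × Fin (m + 1)`, families `tc β l (A k)` and `tc β (m - l) (B k)`: for all `x, y`
  `lin β (S.piecewise x y) f = ∑ k, lin β x (A k) * lin β y (B k)` (`Polynomial.funext`, `lin_eval`: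
  `β + z * S.piecewise x y = S.piecewise (β + z x) (β + z y)`); compare the coefficients of `z ^ m` (`eval_tc`, `Polynomial.coeff_mul`,
  `Finset.Nat.sum_antidiagonal_eq_sum_range_succ`).
-/

namespace JB

open MvPolynomial AOR

/-- Evaluation of the polynomial on the line in the direction `b`. -/
private theorem line_eval {n : ℕ} (x : Fin n → ℂ) (b : Fin n) (u : MvPolynomial (Fin n) ℂ) (t : ℂ) :
    (aeval (fun i => Polynomial.C (x i) + if i = b then Polynomial.X else 0) u :
      Polynomial ℂ).eval t = eval (fun i => x i + if i = b then t else 0) u := by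
  have h : (Polynomial.evalRingHom t).comp
      (aeval (fun i => Polynomial.C (x i) + if i = b then Polynomial.X else 0) :
        MvPolynomial (Fin n) ℂ →ₐ[ℂ] Polynomial ℂ).toRingHom =
      eval (fun i => x i + if i = b then t else 0) := by
    apply MvPolynomial.ringHom_ext
    · intro c
      simp
    · intro i
      by_cases hi : i = b <;> simp [hi]
  exact congrArg (fun φ => φ u) h

private theorem line_zero {n : ℕ} (x : Fin n → ℂ) (b : Fin n) (u : MvPolynomial (Fin n) ℂ) :
    (aeval (fun i => Polynomial.C (x i) + if i = b then Polynomial.X else 0) u :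
      Polynomial ℂ).coeff 0 = eval x u := by
  rw [Polynomial.coeff_zero_eq_eval_zero, line_eval]
  congr 2
  funext i
  simp

theorem coeff_one_line {n : ℕ} (x : Fin n → ℂ) (b : Fin n) (u : MvPolynomial (Fin n) ℂ) :
    (aeval (fun i => Polynomial.C (x i) + if i = b then Polynomial.X else 0) u :
      Polynomial ℂ).coeff 1 = eval x (pderiv b u) := by
  induction u using MvPolynomial.induction_on with
  | C c =>
    rw [MvPolynomial.aeval_C, pderiv_C, map_zero, Polynomial.algebraMap_apply,
      Polynomial.coeff_C_succ]
  | add p q hp hq => rw [map_add, Polynomial.coeff_add, hp, hq, map_add, map_add]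
  | mul_X p i hp =>
    rw [map_mul, aeval_X, Derivation.leibniz, map_add, smul_eq_mul, smul_eq_mul, map_mul, map_mul,
      eval_X, Polynomial.coeff_mul, Finset.Nat.sum_antidiagonal_eq_sum_range_succ
        (fun a c => (aeval (fun i => Polynomial.C (x i) + if i = b then Polynomial.X else 0) p :
          Polynomial ℂ).coeff a * (Polynomial.C (x i) + if i = b then Polynomial.X else 0 :
          Polynomial ℂ).coeff c), Finset.sum_range_succ, Finset.sum_range_one, hp, line_zero]
    by_cases hi : i = b
    · subst hi
      simp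
      ring
    · rw [pderiv_X_of_ne (fun h => hi h)]
      simp [hi]
      ring

private theorem pw_left {n : ℕ} {S : Finset (Fin n)} {b : Fin n} (hb : b ∈ S) (x y : Fin n → ℂ)
    (t : ℂ) : (fun i => S.piecewise x y i + if i = b then t else 0) =
      S.piecewise (fun i => x i + if i = b then t else 0) y := by
  funext i
  by_cases hi : i ∈ S
  · rw [Finset.piecewise_eq_of_mem _ _ _ hi, Finset.piecewise_eq_of_mem _ _ _ hi]
  · have hib : i ≠ b := fun h => hi (h ▸ hb)
    rw [Finset.piecewise_eq_of_notMem _ _ _ hi, Finset.piecewise_eq_of_notMem _ _ _ hi,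
      if_neg hib, add_zero]

private theorem pw_right {n : ℕ} {S : Finset (Fin n)} {b : Fin n} (hb : b ∉ S) (x y : Fin n → ℂ)
    (t : ℂ) : (fun i => S.piecewise x y i + if i = b then t else 0) =
      S.piecewise x (fun i => y i + if i = b then t else 0) := by
  funext i
  by_cases hi : i ∈ S
  · have hib : i ≠ b := fun h => hb (h ▸ hi)
    rw [Finset.piecewise_eq_of_mem _ _ _ hi, Finset.piecewise_eq_of_mem _ _ _ hi, if_neg hib,
      add_zero]
  · rw [Finset.piecewise_eq_of_notMem _ _ _ hi, Finset.piecewise_eq_of_notMem _ _ _ hi]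

theorem ao_pderiv {n R : ℕ} {f : MvPolynomial (Fin n) ℂ} (h : AO R f) (b : Fin n) :
    AO R (pderiv b f) := by
  intro S
  obtain ⟨A, B, hAB⟩ := h S
  by_cases hb : b ∈ S
  · refine ⟨fun k => pderiv b (A k), B, fun x y => ?_⟩
    have h1 : (aeval (fun i => Polynomial.C (S.piecewise x y i) +
        if i = b then Polynomial.X else 0) f : Polynomial ℂ) =
        ∑ k, (aeval (fun i => Polynomial.C (x i) + if i = b then Polynomial.X else 0) (A k) :
          Polynomial ℂ) * Polynomial.C (eval y (B k)) := by
      apply Polynomial.funext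
      intro t
      rw [line_eval, pw_left hb, hAB, Polynomial.eval_finsetSum]
      refine Finset.sum_congr rfl fun k _ => ?_
      rw [Polynomial.eval_mul, Polynomial.eval_C, line_eval]
    rw [← coeff_one_line, h1, Polynomial.finsetSum_coeff]
    refine Finset.sum_congr rfl fun k _ => ?_
    rw [Polynomial.coeff_mul_C, coeff_one_line]
  · refine ⟨A, fun k => pderiv b (B k), fun x y => ?_⟩
    have h1 : (aeval (fun i => Polynomial.C (S.piecewise x y i) +
        if i = b then Polynomial.X else 0) f : Polynomial ℂ) =
        ∑ k, Polynomial.C (eval x (A k)) *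
          (aeval (fun i => Polynomial.C (y i) + if i = b then Polynomial.X else 0) (B k) :
          Polynomial ℂ) := by
      apply Polynomial.funext
      intro t
      rw [line_eval, pw_right hb, hAB, Polynomial.eval_finsetSum]
      refine Finset.sum_congr rfl fun k _ => ?_
      rw [Polynomial.eval_mul, Polynomial.eval_C, line_eval]
    rw [← coeff_one_line, h1, Polynomial.finsetSum_coeff]
    refine Finset.sum_congr rfl fun k _ => ?_
    rw [Polynomial.coeff_C_mul, coeff_one_line]

private theorem eval_scale {n : ℕ} (c : ℂ) (x : Fin n → ℂ) (u : MvPolynomial (Fin n) ℂ) :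
    eval x (aeval (fun i => C c * X i) u : MvPolynomial (Fin n) ℂ) =
      eval (fun i => c * x i) u := by
  have h : (eval x).comp (aeval (fun i => C c * X i) :
      MvPolynomial (Fin n) ℂ →ₐ[ℂ] MvPolynomial (Fin n) ℂ).toRingHom =
      eval (fun i => c * x i) := by
    apply MvPolynomial.ringHom_ext
    · intro a
      simp
    · intro i
      simp
  exact congrArg (fun φ => φ u) h

theorem ao_scale {n R : ℕ} {f : MvPolynomial (Fin n) ℂ} (h : AO R f) (c : ℂ) :
    AO R (aeval (fun i => C c * X i) f : MvPolynomial (Fin n) ℂ) := by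
  intro S
  obtain ⟨A, B, hAB⟩ := h S
  refine ⟨fun k => aeval (fun i => C c * X i) (A k), fun k => aeval (fun i => C c * X i) (B k),
    fun x y => ?_⟩
  have h1 : (fun i => c * S.piecewise x y i) =
      S.piecewise (fun i => c * x i) (fun i => c * y i) := by
    funext i
    by_cases hi : i ∈ S
    · rw [Finset.piecewise_eq_of_mem _ _ _ hi, Finset.piecewise_eq_of_mem _ _ _ hi]
    · rw [Finset.piecewise_eq_of_notMem _ _ _ hi, Finset.piecewise_eq_of_notMem _ _ _ hi]
  rw [eval_scale, h1, hAB]
  refine Finset.sum_congr rfl fun k _ => ?_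
  rw [eval_scale, eval_scale]

theorem ao_tc {n R : ℕ} {f : MvPolynomial (Fin n) ℂ} (h : AO R f) (β : Fin n → ℂ) (m : ℕ) :
    AO ((m + 1) * R) (tc β m f) := by
  refine ao_of fun S => ?_
  obtain ⟨A, B, hAB⟩ := h S
  refine ⟨Fin R × Fin (m + 1), inferInstance, (fun k => tc β k.2 (A k.1)),
    (fun k => tc β (m - k.2) (B k.1)), ?_, fun x y => ?_⟩
  · rw [Fintype.card_prod, Fintype.card_fin, Fintype.card_fin, mul_comm]
  have h1 : lin β (S.piecewise x y) f = ∑ k, lin β x (A k) * lin β y (B k) := by
    apply Polynomial.funext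
    intro z
    have h2 : (fun i => β i + z * S.piecewise x y i) =
        S.piecewise (fun i => β i + z * x i) (fun i => β i + z * y i) := by
      funext i
      by_cases hi : i ∈ S
      · rw [Finset.piecewise_eq_of_mem _ _ _ hi, Finset.piecewise_eq_of_mem _ _ _ hi]
      · rw [Finset.piecewise_eq_of_notMem _ _ _ hi, Finset.piecewise_eq_of_notMem _ _ _ hi]
    rw [lin_eval, h2, hAB, Polynomial.eval_finsetSum]
    refine Finset.sum_congr rfl fun k _ => ?_
    rw [Polynomial.eval_mul, lin_eval, lin_eval]
  rw [eval_tc, h1, Polynomial.finsetSum_coeff, Fintype.sum_prod_type]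
  refine Finset.sum_congr rfl fun k _ => ?_
  rw [Polynomial.coeff_mul, Finset.Nat.sum_antidiagonal_eq_sum_range_succ
    (fun a c => (lin β x (A k)).coeff a * (lin β y (B k)).coeff c), Finset.sum_range]
  refine Finset.sum_congr rfl fun l _ => ?_
  rw [eval_tc, eval_tc]

end JB
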