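import Pool.Agent.Helper53.JB.Deriv

/-!
# JB-A5: the any-order rank of the logarithmic derivatives

`inv N β G = C γ⁻¹ * ∑ a < N, (1 - C γ⁻¹ * G) ^ a`, and `(1 - C γ⁻¹ * G) ^ a = ∑ c ≤ a, C (binom a c (-γ⁻¹) ^ c) * G ^ c` (`add_pow`). So
`pderiv b G * inv N β G = ∑ c ∈ range N, C (κ c) * (G ^ c * pderiv b G)` with some numbers `κ c`, and
`G ^ c * pderiv b G = C (1 / (c + 1)) * pderiv b (G ^ (c + 1))` (`Derivation.leibniz_pow`), of any-order rank
`≤ ((c + 1) * K + 1) ^ w ≤ (N * K + 1) ^ w` (`GP`, `ao_pderiv`, `ao_C_mul`, `ao_mono`). Sum with `ao_fsum_const`.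
(It is enough to prove: `inv N β G` is in the span of the `G ^ c`, `c < N`: there are `κ : ℕ → ℂ` with
`inv N β G = ∑ c ∈ range N, C (κ c) * G ^ c`.)
-/

namespace JB

open MvPolynomial AOR

theorem inv_eq_sum {n : ℕ} (N : ℕ) (β : Fin n → ℂ) (G : MvPolynomial (Fin n) ℂ) :
    ∃ κ : ℕ → ℂ, inv N β G = ∑ c ∈ Finset.range N, C (κ c) * G ^ c := by
  set γ : ℂ := (eval β G)⁻¹ with hγ
  refine ⟨fun c => ∑ a ∈ Finset.range N, if c ≤ a then γ * ((-γ) ^ c * (a.choose c : ℂ)) else 0, ?_⟩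
  have h1 : ∀ a ∈ Finset.range N, (1 - C γ * G) ^ a =
      ∑ c ∈ Finset.range N, if c ≤ a then C ((-γ) ^ c * (a.choose c : ℂ)) * G ^ c else 0 := by
    intro a ha
    have h2 : (1 - C γ * G) ^ a = (C (-γ) * G + 1) ^ a := by
      congr 1
      rw [map_neg]
      ring
    rw [h2, add_pow, ← Finset.sum_filter]
    have h3 : (Finset.range N).filter (fun c => c ≤ a) = Finset.range (a + 1) := by
      ext c
      rw [Finset.mem_filter, Finset.mem_range, Finset.mem_range]
      rw [Finset.mem_range] at ha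
      omega
    rw [h3]
    refine Finset.sum_congr rfl fun c _ => ?_
    rw [mul_pow, one_pow, mul_one, map_mul, map_pow, map_natCast]
    ring
  rw [inv, ← hγ, Finset.sum_congr rfl h1, Finset.sum_comm, Finset.mul_sum]
  refine Finset.sum_congr rfl fun c _ => ?_
  rw [Finset.mul_sum, map_sum, Finset.sum_mul]
  refine Finset.sum_congr rfl fun a _ => ?_
  split_ifs
  · rw [map_mul C γ]
    ring
  · rw [map_zero, zero_mul, mul_zero]

theorem ao_dlog {n w K : ℕ} (N : ℕ) (β : Fin n → ℂ) {G : MvPolynomial (Fin n) ℂ}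
    (h : GP K w G) (b : Fin n) :
    AO (N * (N * K + 1) ^ w) (pderiv b G * inv N β G) := by
  obtain ⟨κ, hκ⟩ := inv_eq_sum N β G
  rw [hκ, Finset.mul_sum]
  have h1 := ao_fsum_const (R := (N * K + 1) ^ w) (Finset.range N)
    (fun c => pderiv b G * (C (κ c) * G ^ c)) (fun c hc => by
      have h2 : pderiv b G * (C (κ c) * G ^ c) =
          C (κ c * ((c : ℂ) + 1)⁻¹) * pderiv b (G ^ (c + 1)) := by
        have h3 : ((c : ℂ) + 1) ≠ 0 := Nat.cast_add_one_ne_zero c
        have h4 : (C (κ c) : MvPolynomial (Fin n) ℂ) =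
            C (κ c * ((c : ℂ) + 1)⁻¹) * ((c + 1 : ℕ) : MvPolynomial (Fin n) ℂ) := by
          rw [← map_natCast (C : ℂ →+* MvPolynomial (Fin n) ℂ) (c + 1), ← map_mul]
          congr 1
          push_cast
          field_simp
        rw [Derivation.leibniz_pow, h4, Nat.add_sub_cancel]
        simp only [nsmul_eq_mul, smul_eq_mul]
        ring
      rw [h2]
      refine ao_mono (ao_C_mul _ (ao_pderiv (h (c + 1)) b)) (Nat.pow_le_pow_left ?_ w)
      rw [Finset.mem_range] at hc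
      have h5 : (c + 1) * K ≤ N * K := Nat.mul_le_mul_right K hc
      omega)
  rwa [Finset.card_range] at h1

end JB
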