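import Pool.Agent.Helper53.JB.Basic

/-!
# JB-A1: the class `GP`

* `gp_of_ao`: `ao_pow`, `(l + 1) ^ w ≤ (l * K + 1) ^ w` (`Nat.pow_le_pow_left`, `K ≥ 1`).
* `gp_C_mul`: `(C c * G) ^ l = C (c ^ l) * G ^ l`, `ao_C_mul`.
* `gp_comp`: `aeval h g ^ l = aeval h (g ^ l)`, `(g ^ l).totalDegree ≤ l * e`. Fix `S`; `h i (S.piecewise x y) = ∑ k < w, A i k (x) B i k (y)`.
  Put `Q = aeval (fun i => ∑ k, X (i, k)) (g ^ l) : MvPolynomial (Fin c × Fin w) ℂ`, of total degree `≤ l * e` (compare
  `totalDegree_aeval_le` in `Pool/Agent/Helper7/PD/Closure.lean`), so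
  `eval (S.piecewise x y) (aeval h (g ^ l)) = eval (fun q => eval x (A q.1 q.2) * eval y (B q.1 q.2)) Q
  = ∑ m ∈ Q.support, coeff m Q * (∏ q, eval x (A q.1 q.2) ^ m q) * (∏ q, eval y (B q.1 q.2) ^ m q)` (`eval_eq'`); all exponents are `≤ l * e`
  (`le_totalDegree`/`monomial_le_degreeOf`, `degreeOf_le_totalDegree`), so the index type `Fin c × Fin w → Fin (l * e + 1)` with
  `(l * e + 1) ^ (c * w)` elements works (`ao_of`; put the coefficient, `0` if not in the support, into `A`).
-/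

namespace JB

open MvPolynomial AOR

theorem gp_of_ao {n w K : ℕ} {G : MvPolynomial (Fin n) ℂ} (hK : 1 ≤ K) (h : AO w G) :
    GP K w G := by
  intro l
  refine ao_mono (ao_pow h l) (Nat.pow_le_pow_left ?_ w)
  have := Nat.mul_le_mul_left l hK
  omega

theorem gp_C_mul {n w K : ℕ} (c : ℂ) {G : MvPolynomial (Fin n) ℂ} (h : GP K w G) :
    GP K w (C c * G) := by
  intro l
  rw [mul_pow, ← C_pow]
  exact ao_C_mul _ (h l)

/-- Linear substitutions do not increase the total degree. -/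
theorem totalDegree_aeval_lin {σ τ : Type} [Fintype σ] (p : MvPolynomial σ ℂ)
    (f : σ → MvPolynomial τ ℂ) (hf : ∀ i, (f i).totalDegree ≤ 1) :
    (aeval f p).totalDegree ≤ p.totalDegree := by
  classical
  rw [aeval_def, eval₂_eq']
  refine totalDegree_finsetSum_le fun d hd => ?_
  refine (totalDegree_mul _ _).trans ?_
  have h1 : (algebraMap ℂ (MvPolynomial τ ℂ) (coeff d p)).totalDegree = 0 := by
    rw [MvPolynomial.algebraMap_eq, totalDegree_C]
  rw [h1, zero_add]
  refine (totalDegree_finsetProd _ _).trans ?_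
  have h2 : ∑ i, (f i ^ d i).totalDegree ≤ ∑ i, d i := by
    refine Finset.sum_le_sum fun i _ => (totalDegree_pow _ _).trans ?_
    have := Nat.mul_le_mul_left (d i) (hf i)
    omega
  refine h2.trans ?_
  have h3 := le_totalDegree hd
  rw [Finsupp.sum_fintype _ _ (fun _ => rfl)] at h3
  exact h3

theorem ao_aeval {n c w D : ℕ} {p : MvPolynomial (Fin c) ℂ} (hp : p.totalDegree ≤ D)
    {h : Fin c → MvPolynomial (Fin n) ℂ} (hh : ∀ i, AO w (h i)) :
    AO ((D + 1) ^ (c * w)) (aeval h p) := by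
  classical
  refine ao_of fun S => ?_
  choose A B hAB using fun i => hh i S
  set Q : MvPolynomial (Fin c × Fin w) ℂ := aeval (fun i => ∑ k, X (i, k)) p with hQ
  have hQd : Q.totalDegree ≤ D := by
    refine (totalDegree_aeval_lin p _ fun i => ?_).trans hp
    refine totalDegree_finsetSum_le fun k _ => ?_
    rw [totalDegree_X]
  let φ : (Fin c × Fin w → Fin (D + 1)) → (Fin c × Fin w →₀ ℕ) :=
    fun m => Finsupp.equivFunOnFinite.symm fun q => (m q : ℕ)
  have hφ : Function.Injective φ := by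
    intro m m' hm
    have h1 := Finsupp.equivFunOnFinite.symm.injective hm
    funext q
    exact Fin.ext (congrFun h1 q)
  refine ⟨Fin c × Fin w → Fin (D + 1), inferInstance,
    (fun m => C (coeff (φ m) Q) * ∏ q, A q.1 q.2 ^ (m q : ℕ)),
    (fun m => ∏ q, B q.1 q.2 ^ (m q : ℕ)), by simp, fun x y => ?_⟩
  have e1 : eval (S.piecewise x y) (aeval h p) =
      eval (fun q : Fin c × Fin w => eval x (A q.1 q.2) * eval y (B q.1 q.2)) Q := by
    have e2 : (eval (S.piecewise x y)).comp (aeval h : _ →ₐ[ℂ] MvPolynomial (Fin n) ℂ).toRingHom =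
        (eval (fun q : Fin c × Fin w => eval x (A q.1 q.2) * eval y (B q.1 q.2))).comp
          (aeval (fun i => ∑ k, X (i, k)) :
            MvPolynomial (Fin c) ℂ →ₐ[ℂ] MvPolynomial (Fin c × Fin w) ℂ).toRingHom := by
      apply MvPolynomial.ringHom_ext
      · intro a
        simp
      · intro i
        simp [hAB]
    exact congrArg (fun φ => φ p) e2
  rw [e1, eval_eq']
  have e3 : ∀ m : Fin c × Fin w → Fin (D + 1),
      eval x (C (coeff (φ m) Q) * ∏ q, A q.1 q.2 ^ (m q : ℕ)) *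
        eval y (∏ q, B q.1 q.2 ^ (m q : ℕ)) =
      (fun d : Fin c × Fin w →₀ ℕ => coeff d Q *
        ∏ q, (eval x (A q.1 q.2) * eval y (B q.1 q.2)) ^ d q) (φ m) := by
    intro m
    rw [map_mul, eval_C, map_prod, map_prod]
    simp only [map_pow, mul_pow]
    rw [Finset.prod_mul_distrib]
    simp only [φ, Finsupp.equivFunOnFinite_symm_apply_apply]
    ring
  rw [Finset.sum_congr rfl fun m _ => e3 m]
  rw [← Finset.sum_image (s := Finset.univ) (g := φ)
    (f := fun d : Fin c × Fin w →₀ ℕ => coeff d Q *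
        ∏ q, (eval x (A q.1 q.2) * eval y (B q.1 q.2)) ^ d q) hφ.injOn]
  refine Finset.sum_subset ?_ ?_
  · intro d hd
    rw [Finset.mem_image]
    refine ⟨fun q => ⟨d q, ?_⟩, Finset.mem_univ _, ?_⟩
    · have h1 := le_totalDegree hd
      rw [Finsupp.sum_fintype _ _ (fun _ => rfl)] at h1
      have h2 : d q ≤ ∑ i, d i :=
        Finset.single_le_sum (fun j _ => Nat.zero_le (d j)) (Finset.mem_univ q)
      omega
    · ext q
      simp [φ]
  · intro d _ hd
    rw [notMem_support_iff.mp hd, zero_mul]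

theorem gp_comp {n c w e : ℕ} {g : MvPolynomial (Fin c) ℂ} (hg : g.totalDegree ≤ e)
    {h : Fin c → MvPolynomial (Fin n) ℂ} (hh : ∀ i, AO w (h i)) : GP e (c * w) (aeval h g) := by
  intro l
  rw [← map_pow]
  exact ao_aeval ((totalDegree_pow _ _).trans (Nat.mul_le_mul_left l hg)) hh

end JB
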