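import Pool.Agent.Helper53.JB.Ord
import Pool.Agent.Helper53.JB.Dlog

/-!
# JB-A6: the any-order rank of the minors divided by the factors

* `cg_col`: `pderiv b (P * ∏ j, G j) * ∏ j, inv N β (G j)` is congruent to `pderiv b P + P * ∑ j, pderiv b (G j) * inv N β (G j)`: by the
  product rule (`Derivation.leibniz`, and `Derivation.leibniz_prod` or `MvPolynomial.pderiv_mul` with induction over the product; it may be
  easier to prove by `Fin`-induction/`Finset.induction_on` for a finset `s` of indices the congruence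
  `pderiv b (∏ j ∈ s, G j) * ∏ j ∈ s, inv (G j) ≡ ∑ j ∈ s, pderiv b (G j) * inv (G j)` together with
  `(∏ j ∈ s, G j) * ∏ j ∈ s, inv (G j) ≡ 1`, using `cg_inv`, `Cg.mul`, `Cg.add`).
* `cg_minor`: `jac T I * invp N β G = det (pderiv (I b) (T i) * ∏ j, inv N β (G i j))` (`Matrix.det_mul_row`: the factor depends on the
  column `i`; `invp = ∏ i, ∏ j, ..`), then `Cg.det` and `cg_col`.
* `ao_entry`: `ao_pderiv`, `ao_mul`, `ao_fsum_const`, `ao_dlog`: rank `≤ ρ + ρ * (s * (N * (N K + 1) ^ w))`.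
* `ao_V`: by `cg_minor` the coefficient is `tc β m (det E)`; `ao_det`, `ao_tc`, `m + 1 ≤ N`, `r ! ≤ k !`, `Q ^ r ≤ Q ^ k` for `Q ≥ 1`.
-/

namespace JB

open MvPolynomial AOR

/-- The entries of the matrix. -/
noncomputable def ent {n s : ℕ} (N : ℕ) (β : Fin n → ℂ) (P : MvPolynomial (Fin n) ℂ)
    (G : Fin s → MvPolynomial (Fin n) ℂ) (b : Fin n) : MvPolynomial (Fin n) ℂ :=
  pderiv b P + P * ∑ j, pderiv b (G j) * inv N β (G j)

private theorem prod_aux {n : ℕ} {ι : Type*} (N : ℕ) {β : Fin n → ℂ} {G : ι → MvPolynomial (Fin n) ℂ}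
    (hβ : ∀ j, eval β (G j) ≠ 0) (b : Fin n) (S : Finset ι) :
    Cg N β ((∏ j ∈ S, G j) * ∏ j ∈ S, inv N β (G j)) 1 ∧
      Cg N β (pderiv b (∏ j ∈ S, G j) * ∏ j ∈ S, inv N β (G j))
        (∑ j ∈ S, pderiv b (G j) * inv N β (G j)) := by
  classical
  induction S using Finset.induction_on with
  | empty =>
    refine ⟨?_, ?_⟩
    · rw [Finset.prod_empty, Finset.prod_empty, one_mul]
      exact Cg.refl _
    · rw [Finset.prod_empty, Finset.prod_empty, Finset.sum_empty, pderiv_one, zero_mul]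
      exact Cg.refl _
  | insert a S ha ih =>
    obtain ⟨h1, h2⟩ := ih
    rw [Finset.prod_insert ha, Finset.prod_insert ha, Finset.sum_insert ha]
    refine ⟨?_, ?_⟩
    · have e : G a * (∏ j ∈ S, G j) * (inv N β (G a) * ∏ j ∈ S, inv N β (G j)) =
          (G a * inv N β (G a)) * ((∏ j ∈ S, G j) * ∏ j ∈ S, inv N β (G j)) := by ring
      rw [e]
      have h3 := Cg.mul (cg_inv N (hβ a)) h1
      rwa [one_mul] at h3
    · have e : pderiv b (G a * ∏ j ∈ S, G j) * (inv N β (G a) * ∏ j ∈ S, inv N β (G j)) =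
          (pderiv b (G a) * inv N β (G a)) * ((∏ j ∈ S, G j) * ∏ j ∈ S, inv N β (G j)) +
          (G a * inv N β (G a)) * (pderiv b (∏ j ∈ S, G j) * ∏ j ∈ S, inv N β (G j)) := by
        rw [pderiv_mul]
        ring
      rw [e]
      have h3 := Cg.mul (Cg.refl (N := N) (β := β) (pderiv b (G a) * inv N β (G a))) h1
      have h4 := Cg.mul (cg_inv N (hβ a)) h2
      rw [mul_one] at h3
      rw [one_mul] at h4
      exact Cg.add h3 h4

theorem cg_col {n s : ℕ} (N : ℕ) {β : Fin n → ℂ} (P : MvPolynomial (Fin n) ℂ)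
    {G : Fin s → MvPolynomial (Fin n) ℂ} (hβ : ∀ j, eval β (G j) ≠ 0) (b : Fin n) :
    Cg N β (pderiv b (P * ∏ j, G j) * ∏ j, inv N β (G j)) (ent N β P G b) := by
  obtain ⟨h1, h2⟩ := prod_aux N hβ b Finset.univ
  have e : pderiv b (P * ∏ j, G j) * ∏ j, inv N β (G j) =
      pderiv b P * ((∏ j, G j) * ∏ j, inv N β (G j)) +
        P * (pderiv b (∏ j, G j) * ∏ j, inv N β (G j)) := by
    rw [pderiv_mul]
    ring
  rw [e, ent]
  have h3 := Cg.mul (Cg.refl (N := N) (β := β) (pderiv b P)) h1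
  rw [mul_one] at h3
  exact Cg.add h3 (Cg.mul (Cg.refl P) h2)

theorem cg_minor {n r s : ℕ} (N : ℕ) {β : Fin n → ℂ} (P : Fin r → MvPolynomial (Fin n) ℂ)
    {G : Fin r → Fin s → MvPolynomial (Fin n) ℂ} (hβ : ∀ i j, eval β (G i j) ≠ 0)
    (I : Fin r → Fin n) :
    Cg N β (jac (fun i => P i * ∏ j, G i j) I * invp N β G)
      (Matrix.det (Matrix.of fun b i : Fin r => ent N β (P i) (G i) (I b))) := by
  have e : jac (fun i => P i * ∏ j, G i j) I * invp N β G =
      Matrix.det (Matrix.of fun b i : Fin r => (∏ j, inv N β (G i j)) *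
        (Matrix.of fun b i : Fin r => pderiv (I b) (P i * ∏ j, G i j)) b i) := by
    rw [Matrix.det_mul_row, jac, invp, mul_comm]
  rw [e]
  refine Cg.det fun b i => ?_
  rw [Matrix.of_apply, Matrix.of_apply, Matrix.of_apply, mul_comm]
  exact cg_col N (P i) (hβ i) (I b)

theorem ao_entry {n s K ρ w : ℕ} (N : ℕ) (β : Fin n → ℂ) {P : MvPolynomial (Fin n) ℂ}
    (hP : AO ρ P) {G : Fin s → MvPolynomial (Fin n) ℂ} (hG : ∀ j, GP K w (G j)) (b : Fin n) :
    AO (ρ * (1 + s * (N * (N * K + 1) ^ w))) (ent N β P G b) := by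
  have h1 := ao_fsum_const (R := N * (N * K + 1) ^ w) (Finset.univ : Finset (Fin s))
    (fun j => pderiv b (G j) * inv N β (G j)) (fun j _ => ao_dlog N β (hG j) b)
  rw [Finset.card_univ, Fintype.card_fin] at h1
  have h2 := ao_add (ao_pderiv hP b) (ao_mul hP h1)
  rw [ent, mul_add, mul_one]
  exact h2

theorem ao_V {n k r s K ρ w N : ℕ} (hr : r ≤ k) {β : Fin n → ℂ}
    {P : Fin r → MvPolynomial (Fin n) ℂ} (hP : ∀ i, AO ρ (P i))
    {G : Fin r → Fin s → MvPolynomial (Fin n) ℂ} (hG : ∀ i j, GP K w (G i j))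
    (hβ : ∀ i j, eval β (G i j) ≠ 0) (I : Fin r → Fin n) {m : ℕ} (hm : m < N) :
    AO (rkV K w k s ρ N) (tc β m (jac (fun i => P i * ∏ j, G i j) I * invp N β G)) := by
  rw [cg_minor N P hβ I m hm]
  have h1 := ao_det (R := ρ * (1 + s * (N * (N * K + 1) ^ w)))
    (Matrix.of fun b i : Fin r => ent N β (P i) (G i) (I b))
    (fun b i => ao_entry N β (hP i) (hG i) (I b))
  refine ao_mono (ao_tc h1 β m) ?_
  rw [rkV]
  refine Nat.mul_le_mul hm (Nat.mul_le_mul (Nat.factorial_le hr) ?_)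
  calc (ρ * (1 + s * (N * (N * K + 1) ^ w))) ^ r
      ≤ (ρ * (1 + s * (N * (N * K + 1) ^ w)) + 1) ^ r := Nat.pow_le_pow_left (Nat.le_succ _) r
    _ ≤ _ := Nat.pow_le_pow_right (Nat.succ_pos _) hr

end JB
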