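import Pool.Agent.Helper53.JB.Basic
import Pool.Agent.Helper31.AO.NatPt

/-!
# JB-A9: a curve with integer values through a list of integer points; a natural point on a line

`newt L z = ∑ j < length, (z choose j) * Δ^j L (0)`. `newt_apply`: Newton's formula
(`shift_eq_sum_fwdDiff_iter` and `fwdDiff_iter_eq_sum_shift` of Mathlib with step `1`, or a direct proof: for
`z < length` the double sum `∑ j ≤ z, ∑ i ≤ j, (-1)^(j-i) (z choose j) (j choose i) L_i = L_z`).
`newt_le`: `(z choose j) ≤ (z + 1) ^ L.length`, `∑ i, (j choose i) = 2 ^ j`.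
`exists_newt`: for `g ≠ 0` of degree `≤ δ` with `g (L_i) ≠ 0` for some `i`: the polynomials
`q_l (z) = ∑ j, (descPochhammer / j !)(z) * a_j l ∈ ℂ[z]` (degree `≤ length`; `(z choose j)` is the value of the
polynomial `C (j !)⁻¹ * descPochhammer ℂ j`, `descPochhammer_eval_eq_descFactorial`,
`Nat.choose_eq_descFactorial_div_factorial`) and `g (q (z)) ∈ ℂ[z]` has degree `≤ δ * length` and is nonzero (value
at `z = i`). The product over the family has degree `≤ N * (δ * length)`: some natural `z ≤ N * (δ * length)` is no root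
(compare `nat_pt` and its proof in `Pool/Agent/Helper31/AO/NatPt.lean`: `aeval_natDegree_le`; `nat_pt` itself applied to the product of the
`g j` with degree bound `N * δ` and `K = length` is enough: the value of the product is the product of the values; a common `z : ℂ` where
no factor vanishes exists because every factor is a nonzero polynomial in `z`).
* `exists_scalar`: `(lin β y M).coeff m ≠ 0` (`eval_tc`), so the polynomial `lin β y M` of degree `≤ D` is not zero; `nat_pt` with
  `q i = C (β i) + X * C (y i)` and `K = 1`, or directly.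
-/

namespace JB

open MvPolynomial AOR

theorem newt_apply {n : ℕ} (L : List (Fin n → ℤ)) (z : ℕ) (hz : z < L.length) :
    newt L z = L.getD z 0 := by
  funext l
  have h1 := shift_eq_sum_fwdDiff_iter (1 : ℕ) (fun k : ℕ => (L.getD k 0) l) z 0
  simp only [smul_eq_mul, mul_one, zero_add] at h1
  rw [h1]
  unfold newt
  rw [← Finset.sum_subset (Finset.range_subset_range.mpr (Nat.succ_le_of_lt hz))]
  · refine Finset.sum_congr rfl fun j _ => ?_
    have h2 := fwdDiff_iter_eq_sum_shift (1 : ℕ) (fun k : ℕ => (L.getD k 0) l) j 0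
    simp only [smul_eq_mul, mul_one, zero_add] at h2
    rw [h2, nsmul_eq_mul]
  · intro j _ hj
    rw [Finset.mem_range, not_lt] at hj
    rw [Nat.choose_eq_zero_of_lt (by omega), Nat.cast_zero, zero_mul]

theorem newt_le {n : ℕ} (L : List (Fin n → ℤ)) (z M : ℕ) (hM : ∀ a ∈ L, ∀ l, |a l| ≤ M)
    (l : Fin n) : |newt L z l| ≤ (z + 1) ^ L.length * 2 ^ L.length * (L.length * M) := by
  have hget : ∀ i : ℕ, |(L.getD i 0) l| ≤ (M : ℤ) := by
    intro i
    by_cases hi : i < L.length
    · rw [List.getD_eq_getElem _ _ hi]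
      exact hM _ (List.getElem_mem hi) l
    · rw [List.getD_eq_default _ _ (not_lt.mp hi)]
      simp
  unfold newt
  refine (Finset.abs_sum_le_sum_abs _ _).trans ?_
  refine (Finset.sum_le_card_nsmul _ _ ((z + 1) ^ L.length * 2 ^ L.length * M : ℤ)
    (fun j hj => ?_)).trans ?_
  · rw [Finset.mem_range] at hj
    rw [abs_mul]
    have h1 : |((z.choose j : ℕ) : ℤ)| ≤ (z + 1) ^ L.length := by
      rw [abs_of_nonneg (Int.natCast_nonneg _)]
      have h2 : z.choose j ≤ (z + 1) ^ L.length := by
        calc z.choose j ≤ z ^ j := Nat.choose_le_pow _ _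
          _ ≤ (z + 1) ^ j := Nat.pow_le_pow_left (Nat.le_succ z) j
          _ ≤ (z + 1) ^ L.length := Nat.pow_le_pow_right (Nat.succ_pos z) hj.le
      exact_mod_cast h2
    have h3 : |∑ i ∈ Finset.range (j + 1), (-1 : ℤ) ^ (j - i) * (j.choose i : ℤ) *
        (L.getD i 0) l| ≤ 2 ^ L.length * M := by
      refine (Finset.abs_sum_le_sum_abs _ _).trans ?_
      calc ∑ i ∈ Finset.range (j + 1), |(-1 : ℤ) ^ (j - i) * (j.choose i : ℤ) * (L.getD i 0) l|
          ≤ ∑ i ∈ Finset.range (j + 1), (j.choose i : ℤ) * M := by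
            refine Finset.sum_le_sum fun i _ => ?_
            rw [abs_mul, abs_mul, abs_pow, abs_neg, abs_one, one_pow, one_mul,
              abs_of_nonneg (Int.natCast_nonneg _)]
            exact mul_le_mul_of_nonneg_left (hget i) (Int.natCast_nonneg _)
        _ = (2 : ℤ) ^ j * M := by
            rw [← Finset.sum_mul]
            congr 1
            have := Nat.sum_range_choose j
            exact_mod_cast this
        _ ≤ 2 ^ L.length * M := by
            refine mul_le_mul_of_nonneg_right ?_ (Int.natCast_nonneg _)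
            exact pow_le_pow_right₀ (by norm_num) hj.le
    calc _ ≤ (z + 1 : ℤ) ^ L.length * (2 ^ L.length * M) :=
          mul_le_mul h1 h3 (abs_nonneg _) (by positivity)
      _ = _ := by ring
  · rw [Finset.card_range, nsmul_eq_mul]
    apply le_of_eq
    ring

/-- the coordinates of the curve as polynomials -/
private noncomputable def newtP {n : ℕ} (L : List (Fin n → ℤ)) (l : Fin n) : Polynomial ℂ :=
  ∑ j ∈ Finset.range L.length, Polynomial.C (((j.factorial : ℂ))⁻¹ *
    ((∑ i ∈ Finset.range (j + 1), (-1) ^ (j - i) * (j.choose i : ℤ) * (L.getD i 0) l : ℤ) : ℂ)) *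
      descPochhammer ℂ j

private theorem newtP_natDegree {n : ℕ} (L : List (Fin n → ℤ)) (l : Fin n) :
    (newtP L l).natDegree ≤ L.length := by
  unfold newtP
  refine Polynomial.natDegree_sum_le_of_forall_le _ _ fun j hj => ?_
  refine (Polynomial.natDegree_C_mul_le _ _).trans ?_
  rw [descPochhammer_natDegree]
  exact (Finset.mem_range.mp hj).le

private theorem newtP_eval {n : ℕ} (L : List (Fin n → ℤ)) (l : Fin n) (z : ℕ) :
    (newtP L l).eval (z : ℂ) = ((newt L z l : ℤ) : ℂ) := by
  unfold newtP newt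
  rw [Polynomial.eval_finsetSum, Int.cast_sum]
  refine Finset.sum_congr rfl fun j _ => ?_
  rw [Polynomial.eval_mul, Polynomial.eval_C, descPochhammer_eval_eq_descFactorial,
    Nat.descFactorial_eq_factorial_mul_choose, Int.cast_mul, Int.cast_natCast, Nat.cast_mul]
  have h1 : (j.factorial : ℂ) ≠ 0 := Nat.cast_ne_zero.mpr (Nat.factorial_ne_zero j)
  field_simp

theorem exists_newt {n N δ : ℕ} {ι : Type*} [Fintype ι] (hN : Fintype.card ι ≤ N)
    (L : List (Fin n → ℤ)) (g : ι → MvPolynomial (Fin n) ℂ) (hδ : ∀ j, (g j).totalDegree ≤ δ)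
    (hL : ∀ j, ∃ a ∈ L, eval (fun i => ((a i : ℤ) : ℂ)) (g j) ≠ 0) :
    ∃ z : ℕ, z ≤ N * (δ * L.length) ∧ ∀ j, eval (fun i => ((newt L z i : ℤ) : ℂ)) (g j) ≠ 0 := by
  classical
  have hdeg : (∏ j, g j).totalDegree ≤ N * δ := by
    refine (totalDegree_finsetProd _ _).trans ?_
    refine (Finset.sum_le_card_nsmul _ _ δ (fun j _ => hδ j)).trans ?_
    rw [Finset.card_univ, smul_eq_mul]
    exact Nat.mul_le_mul_right _ hN
  have hev : ∀ (f : MvPolynomial (Fin n) ℂ) (z : ℂ),
      (aeval (newtP L) f : Polynomial ℂ).eval z = eval (fun i => (newtP L i).eval z) f := by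
    intro f z
    have h1 : (Polynomial.evalRingHom z).comp
        ((aeval (newtP L) : MvPolynomial (Fin n) ℂ →ₐ[ℂ] Polynomial ℂ) : _ →+* _) =
        eval (fun i => (newtP L i).eval z) := by
      apply MvPolynomial.ringHom_ext
      · intro c
        simp
      · intro i
        simp
    exact congrArg (fun φ => φ f) h1
  have hne : ∀ j, (aeval (newtP L) (g j) : Polynomial ℂ) ≠ 0 := by
    intro j h0
    obtain ⟨a, ha, hj⟩ := hL j
    obtain ⟨i, hi, rfl⟩ := List.mem_iff_getElem.mp ha
    apply hj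
    have h1 := hev (g j) (i : ℂ)
    rw [h0, Polynomial.eval_zero] at h1
    rw [h1]
    congr 1
    congr 1
    funext l
    rw [newtP_eval, newt_apply L i hi, List.getD_eq_getElem _ _ hi]
  have hprod : (∏ j, (aeval (newtP L) (g j) : Polynomial ℂ)) ≠ 0 :=
    Finset.prod_ne_zero_iff.mpr fun j _ => hne j
  obtain ⟨z₀, hz₀⟩ : ∃ z : ℂ, (∏ j, (aeval (newtP L) (g j) : Polynomial ℂ)).eval z ≠ 0 := by
    by_contra hcon
    push Not at hcon
    exact hprod (Polynomial.funext fun z => by rw [hcon z, Polynomial.eval_zero])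
  obtain ⟨u, hu, hu'⟩ := nat_pt hdeg (newtP L) (newtP_natDegree L) ⟨z₀, by
    rw [← hev, map_prod]
    exact hz₀⟩
  refine ⟨u, ?_, fun j hj => hu' ?_⟩
  · rw [← mul_assoc]
    exact hu
  · rw [map_prod]
    refine Finset.prod_eq_zero (Finset.mem_univ j) ?_
    simp only [newtP_eval]
    exact hj

theorem exists_scalar {n D : ℕ} (β y : Fin n → ℂ) {M : MvPolynomial (Fin n) ℂ}
    (hM : M.totalDegree ≤ D) {m : ℕ} (h : eval y (tc β m M) ≠ 0) :
    ∃ z : ℕ, z ≤ D ∧ eval (fun i => β i + z * y i) M ≠ 0 := by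
  rw [eval_tc] at h
  have h0 : lin β y M ≠ 0 := by
    intro h0
    apply h
    rw [h0, Polynomial.coeff_zero]
  obtain ⟨z₀, hz₀⟩ : ∃ z : ℂ, (lin β y M).eval z ≠ 0 := by
    by_contra hcon
    push Not at hcon
    exact h0 (Polynomial.funext fun z => by rw [hcon z, Polynomial.eval_zero])
  have hq : ∀ (i : Fin n) (z : ℂ), (Polynomial.C (β i) + Polynomial.X *
      Polynomial.C (y i) : Polynomial ℂ).eval z = β i + z * y i := by
    intro i z
    rw [Polynomial.eval_add, Polynomial.eval_C, Polynomial.eval_mul, Polynomial.eval_X,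
      Polynomial.eval_C]
  have hd : ∀ i : Fin n, (Polynomial.C (β i) + Polynomial.X *
      Polynomial.C (y i) : Polynomial ℂ).natDegree ≤ 1 := by
    intro i
    refine (Polynomial.natDegree_add_le _ _).trans (max_le ?_ ?_)
    · rw [Polynomial.natDegree_C]
      exact Nat.zero_le _
    · exact (Polynomial.natDegree_mul_C_le _ _).trans Polynomial.natDegree_X_le
  have hz₁ : eval (fun i => (Polynomial.C (β i) + Polynomial.X *
      Polynomial.C (y i) : Polynomial ℂ).eval z₀) M ≠ 0 := by
    simp only [hq]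
    rw [← lin_eval]
    exact hz₀
  obtain ⟨u, hu, hu'⟩ := nat_pt hM (fun i => Polynomial.C (β i) + Polynomial.X *
    Polynomial.C (y i)) (K := 1) hd ⟨z₀, hz₁⟩
  refine ⟨u, by rwa [mul_one] at hu, ?_⟩
  simp only [hq] at hu'
  exact hu'

end JB
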