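import Pool.Agent.Helper53.JB.Basic

/-!
# JB-A4: congruences modulo order `N` at `β`

`Cg N β u v`: the coefficients of `z ^ m`, `m < N`, of `u (β + z y)` and `v (β + z y)` agree.
* `Cg.mul`: `tc_mul`. `Cg.add`, `Cg.sum`, `Cg.prod` by induction. `Cg.det`: `Matrix.det_apply'`, `Cg.sum`, `Cg.prod`.
* `cg_inv`: with `u = 1 - C γ⁻¹ * G`, `γ = eval β G`: `G * inv N β G = 1 - u ^ N` (`mul_geom_sum`/`geom_sum_mul`: `C γ⁻¹ * G = 1 - u`), and
  `Polynomial.X ∣ tay β u` because `(tay β u).coeff 0 = C (eval β u) = 0` (`tc_const`), so `Polynomial.X ^ N ∣ tay β (u ^ N)`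
  (`Polynomial.X_pow_dvd_iff`).
* `totalDegree_tc`: `tay β (monomial)`: prove by `MvPolynomial.induction_on` that the coefficient of `z ^ m` of `tay β u` has total degree
  `≤ m` (for a product with `X i`: `C (C (β i)) + X * C (X i)`, the coefficient is `C (β i) * u_m + X i * u_(m-1)`).
* `tc_eq_zero`: `natDegree (lin β y u) ≤ u.totalDegree` for every `y` (`aeval_natDegree_le` or `MvPolynomial.induction_on`-type estimate as in
  `Helper31/AO/NatPt.lean`), `eval_tc`, `MvPolynomial.funext`.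
* `eq_zero_of_cg`: all `tc β m u` are `0` (`tc_eq_zero` for `m ≥ N`), so `lin β y u = 0` for all `y`; evaluate at `z = 1` (`lin_eval`) at
  `y = x - β`: `eval x u = 0` for all `x`.
* `kill`: multiply by `∏ i, ∏ j, G i j`: `M * (invp * ∏∏ G)` is congruent to `M * 1` (`cg_inv`, `Cg.prod`) and to `0`; `eq_zero_of_cg`.
-/

namespace JB

open MvPolynomial AOR

/-- Congruence modulo order `N` at `β`. -/
def Cg {n : ℕ} (N : ℕ) (β : Fin n → ℂ) (u v : MvPolynomial (Fin n) ℂ) : Prop :=
  ∀ m < N, tc β m u = tc β m v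

theorem Cg.refl {n N : ℕ} {β : Fin n → ℂ} (u : MvPolynomial (Fin n) ℂ) : Cg N β u u :=
  fun _ _ => rfl

theorem Cg.symm {n N : ℕ} {β : Fin n → ℂ} {u v : MvPolynomial (Fin n) ℂ} (h : Cg N β u v) :
    Cg N β v u := fun m hm => (h m hm).symm

theorem Cg.trans {n N : ℕ} {β : Fin n → ℂ} {u v w : MvPolynomial (Fin n) ℂ} (h : Cg N β u v)
    (h' : Cg N β v w) : Cg N β u w := fun m hm => (h m hm).trans (h' m hm)

theorem Cg.mul {n N : ℕ} {β : Fin n → ℂ} {u v u' v' : MvPolynomial (Fin n) ℂ} (h : Cg N β u v)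
    (h' : Cg N β u' v') : Cg N β (u * u') (v * v') := by
  intro m hm
  rw [tc_mul, tc_mul]
  refine Finset.sum_congr rfl fun p hp => ?_
  have h1 : p.1 + p.2 = m := Finset.HasAntidiagonal.mem_antidiagonal.mp hp
  rw [h p.1 (by omega), h' p.2 (by omega)]

theorem Cg.add {n N : ℕ} {β : Fin n → ℂ} {u v u' v' : MvPolynomial (Fin n) ℂ} (h : Cg N β u v)
    (h' : Cg N β u' v') : Cg N β (u + u') (v + v') := by
  intro m hm
  rw [tc_add, tc_add, h m hm, h' m hm]

theorem Cg.sum {n N : ℕ} {β : Fin n → ℂ} {ι : Type*} (s : Finset ι)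
    {u v : ι → MvPolynomial (Fin n) ℂ} (h : ∀ i ∈ s, Cg N β (u i) (v i)) :
    Cg N β (∑ i ∈ s, u i) (∑ i ∈ s, v i) := by
  intro m hm
  rw [tc_sum, tc_sum]
  exact Finset.sum_congr rfl fun i hi => h i hi m hm

theorem Cg.prod {n N : ℕ} {β : Fin n → ℂ} {ι : Type*} (s : Finset ι)
    {u v : ι → MvPolynomial (Fin n) ℂ} (h : ∀ i ∈ s, Cg N β (u i) (v i)) :
    Cg N β (∏ i ∈ s, u i) (∏ i ∈ s, v i) := by
  classical
  induction s using Finset.induction_on with
  | empty =>
    rw [Finset.prod_empty, Finset.prod_empty]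
    exact Cg.refl 1
  | insert a s ha ih =>
    rw [Finset.prod_insert ha, Finset.prod_insert ha]
    exact (h a (Finset.mem_insert_self a s)).mul
      (ih fun i hi => h i (Finset.mem_insert_of_mem hi))

theorem Cg.det {n N r : ℕ} {β : Fin n → ℂ} {E E' : Matrix (Fin r) (Fin r) (MvPolynomial (Fin n) ℂ)}
    (h : ∀ b i, Cg N β (E b i) (E' b i)) : Cg N β E.det E'.det := by
  rw [Matrix.det_apply', Matrix.det_apply']
  exact Cg.sum _ fun σ _ => (Cg.refl _).mul (Cg.prod _ fun i _ => h (σ i) i)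

theorem cg_inv {n : ℕ} (N : ℕ) {β : Fin n → ℂ} {G : MvPolynomial (Fin n) ℂ}
    (h : eval β G ≠ 0) : Cg N β (G * inv N β G) 1 := by
  have h1 : G * inv N β G = 1 - (1 - C (eval β G)⁻¹ * G) ^ N := by
    rw [← mul_neg_geom_sum, inv]
    ring
  have h2 : Polynomial.X ∣ tay β (1 - C (eval β G)⁻¹ * G) := by
    rw [Polynomial.X_dvd_iff]
    change tc β 0 (1 - C (eval β G)⁻¹ * G) = 0
    rw [tc_const, map_sub, map_mul, eval_C, inv_mul_cancel₀ h, map_one, sub_self, map_zero]
  have h3 : Polynomial.X ^ N ∣ tay β ((1 - C (eval β G)⁻¹ * G) ^ N) := by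
    rw [map_pow]
    exact pow_dvd_pow_of_dvd h2 N
  rw [Polynomial.X_pow_dvd_iff] at h3
  intro m hm
  rw [h1, tc, map_sub, Polynomial.coeff_sub, h3 m hm, sub_zero, tc]

theorem totalDegree_tc {n : ℕ} (β : Fin n → ℂ) (m : ℕ) (u : MvPolynomial (Fin n) ℂ) :
    (tc β m u).totalDegree ≤ m := by
  induction u using MvPolynomial.induction_on generalizing m with
  | C c =>
    rw [tc, tay_C, Polynomial.coeff_C]
    split_ifs
    · rw [totalDegree_C]
      exact Nat.zero_le _
    · rw [totalDegree_zero]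
      exact Nat.zero_le _
  | add p q hp hq =>
    rw [tc_add]
    exact (totalDegree_add _ _).trans (max_le (hp m) (hq m))
  | mul_X p i hp =>
    have h1 : tay β (X i) = Polynomial.C (C (β i)) + Polynomial.X * Polynomial.C (X i) := by
      rw [tay, aeval_X]
    rw [tc, map_mul, h1, mul_add, Polynomial.coeff_add, Polynomial.coeff_mul_C]
    refine (totalDegree_add _ _).trans (max_le ?_ ?_)
    · refine (totalDegree_mul _ _).trans ?_
      rw [totalDegree_C, add_zero]
      exact hp m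
    · rw [← mul_assoc, Polynomial.coeff_mul_C]
      cases m with
      | zero =>
        rw [Polynomial.mul_coeff_zero, Polynomial.coeff_X_zero, mul_zero, zero_mul,
          totalDegree_zero]
      | succ m =>
        rw [Polynomial.coeff_mul_X]
        refine (totalDegree_mul _ _).trans ?_
        rw [totalDegree_X]
        exact Nat.succ_le_succ (hp m)

theorem tc_eq_zero {n : ℕ} (β : Fin n → ℂ) {m : ℕ} {u : MvPolynomial (Fin n) ℂ}
    (h : u.totalDegree < m) : tc β m u = 0 := by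
  have h1 : (tay β u).natDegree ≤ u.totalDegree := by
    rw [tay, aeval_def, eval₂_eq']
    refine Polynomial.natDegree_sum_le_of_forall_le _ _ fun s hs => ?_
    have h3 := le_totalDegree hs
    rw [Finsupp.sum_fintype _ _ (fun _ => rfl)] at h3
    refine Polynomial.natDegree_mul_le.trans ?_
    have h4 : (algebraMap ℂ (Polynomial (MvPolynomial (Fin n) ℂ)) (coeff s u)).natDegree = 0 := by
      rw [Polynomial.algebraMap_apply, Polynomial.natDegree_C]
    rw [h4, zero_add]
    refine (Polynomial.natDegree_prod_le _ _).trans ?_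
    refine (Finset.sum_le_sum fun j _ => ?_).trans h3
    refine Polynomial.natDegree_pow_le.trans ?_
    have h5 : (Polynomial.C (C (β j)) + Polynomial.X * Polynomial.C (X j) :
        Polynomial (MvPolynomial (Fin n) ℂ)).natDegree ≤ 1 := by
      refine (Polynomial.natDegree_add_le _ _).trans (max_le ?_ ?_)
      · rw [Polynomial.natDegree_C]
        exact Nat.zero_le _
      · refine Polynomial.natDegree_mul_le.trans ?_
        rw [Polynomial.natDegree_C, add_zero]
        exact Polynomial.natDegree_X_le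
    calc s j * _ ≤ s j * 1 := Nat.mul_le_mul_left _ h5
      _ = s j := mul_one _
  exact Polynomial.coeff_eq_zero_of_natDegree_lt (lt_of_le_of_lt h1 h)

theorem eq_zero_of_cg {n N : ℕ} {β : Fin n → ℂ} {u : MvPolynomial (Fin n) ℂ}
    (hN : u.totalDegree < N) (h : Cg N β u 0) : u = 0 := by
  have h1 : tay β u = 0 := by
    ext1 m
    change tc β m u = _
    rw [Polynomial.coeff_zero]
    rcases Nat.lt_or_ge m N with hm | hm
    · rw [h m hm, tc_zero]
    · exact tc_eq_zero β (lt_of_lt_of_le hN hm)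
  apply MvPolynomial.funext
  intro x
  have h2 : lin β (fun i => x i - β i) u = 0 := by
    rw [← map_tay, h1, Polynomial.map_zero]
  have h3 := lin_eval β (fun i => x i - β i) u 1
  rw [h2, Polynomial.eval_zero] at h3
  have h4 : (fun i => β i + 1 * (x i - β i)) = x := by
    funext i
    ring
  rw [h4] at h3
  rw [← h3, map_zero]

theorem kill {n r s N : ℕ} {β : Fin n → ℂ} {M : MvPolynomial (Fin n) ℂ}
    {G : Fin r → Fin s → MvPolynomial (Fin n) ℂ} (hβ : ∀ i j, eval β (G i j) ≠ 0)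
    (hN : M.totalDegree < N) (h : ∀ m < N, tc β m (M * invp N β G) = 0) : M = 0 := by
  refine eq_zero_of_cg (β := β) hN ?_
  have h1 : Cg N β (∏ i, ∏ j, (G i j * inv N β (G i j))) 1 := by
    have h2 : Cg N β (∏ i, ∏ j, (G i j * inv N β (G i j))) (∏ _i : Fin r, ∏ _j : Fin s, 1) :=
      Cg.prod _ fun i _ => Cg.prod _ fun j _ => cg_inv N (hβ i j)
    simpa using h2
  have h3 : Cg N β (M * invp N β G) 0 := by
    intro m hm
    rw [h m hm, tc_zero]
  have h4 : Cg N β (M * invp N β G * ∏ i, ∏ j, G i j) (0 * ∏ i, ∏ j, G i j) :=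
    h3.mul (Cg.refl _)
  rw [zero_mul] at h4
  have h5 : M * invp N β G * ∏ i, ∏ j, G i j = M * ∏ i, ∏ j, (G i j * inv N β (G i j)) := by
    rw [invp, mul_assoc, ← Finset.prod_mul_distrib]
    congr 1
    refine Finset.prod_congr rfl fun i _ => ?_
    rw [← Finset.prod_mul_distrib]
    exact Finset.prod_congr rfl fun j _ => mul_comm _ _
  rw [h5] at h4
  have h6 : Cg N β (M * ∏ i, ∏ j, (G i j * inv N β (G i j))) (M * 1) := (Cg.refl M).mul h1
  rw [mul_one] at h6
  exact h6.symm.trans h4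

end JB
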