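import Pool.Agent.Helper31.AO.Defs

/-!
# JB: calculus of the any-order rank

Complete proofs. `AO r f` (`Helper31/AO/Defs.lean`): rank `≤ r` across all partitions of the variables.
-/

namespace JB

open MvPolynomial AOR

/-- The index type may be any finite type with at most `r` elements. -/
theorem ao_of {n r : ℕ} {f : MvPolynomial (Fin n) ℂ}
    (h : ∀ S : Finset (Fin n), ∃ (ι : Type) (_ : Fintype ι) (A B : ι → MvPolynomial (Fin n) ℂ),
      Fintype.card ι ≤ r ∧ ∀ x y : Fin n → ℂ,
        eval (S.piecewise x y) f = ∑ k, eval x (A k) * eval y (B k)) : AO r f := by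
  intro S
  obtain ⟨ι, hι, A, B, hc, hAB⟩ := h S
  obtain ⟨e⟩ := Function.Embedding.nonempty_of_card_le (α := ι) (β := Fin r)
    (by rw [Fintype.card_fin]; exact hc)
  refine ⟨Function.extend e A 0, Function.extend e B 0, fun x y => ?_⟩
  rw [hAB]
  refine Fintype.sum_of_injective e e.injective _ _ ?_ ?_
  · intro k hk
    rw [Function.extend_apply' _ _ _ (fun ⟨i, hi⟩ => hk ⟨i, hi⟩)]
    simp
  · intro i
    rw [e.injective.extend_apply, e.injective.extend_apply]

theorem ao_mono {n r s : ℕ} {f : MvPolynomial (Fin n) ℂ} (h : AO r f) (hrs : r ≤ s) :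
    AO s f := by
  refine ao_of fun S => ?_
  obtain ⟨A, B, hAB⟩ := h S
  exact ⟨Fin r, inferInstance, A, B, by rw [Fintype.card_fin]; exact hrs, hAB⟩

theorem ao_zero {n R : ℕ} : AO R (0 : MvPolynomial (Fin n) ℂ) :=
  fun _ => ⟨fun _ => 0, fun _ => 0, fun x y => by simp⟩

theorem ao_const {n R : ℕ} (hR : 1 ≤ R) (c : ℂ) : AO R (C c : MvPolynomial (Fin n) ℂ) := by
  have h : AO 1 (C c : MvPolynomial (Fin n) ℂ) :=
    fun _ => ⟨fun _ => C c, fun _ => 1, fun x y => by simp⟩
  exact ao_mono h hR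

theorem ao_one {n R : ℕ} (hR : 1 ≤ R) : AO R (1 : MvPolynomial (Fin n) ℂ) := by
  rw [← map_one (C : ℂ →+* MvPolynomial (Fin n) ℂ)]
  exact ao_const hR 1

theorem ao_C_mul {n R : ℕ} (c : ℂ) {f : MvPolynomial (Fin n) ℂ} (h : AO R f) :
    AO R (C c * f) := by
  intro S
  obtain ⟨A, B, hAB⟩ := h S
  refine ⟨fun k => C c * A k, B, fun x y => ?_⟩
  rw [map_mul, hAB, Finset.mul_sum, eval_C]
  refine Finset.sum_congr rfl fun k _ => ?_
  rw [map_mul, eval_C]
  ring

theorem ao_neg {n R : ℕ} {f : MvPolynomial (Fin n) ℂ} (h : AO R f) : AO R (-f) := by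
  have h1 := ao_C_mul (-1) h
  rwa [map_neg, map_one, neg_one_mul] at h1

theorem ao_fsum' {n s : ℕ} (f : Fin s → MvPolynomial (Fin n) ℂ) (r : Fin s → ℕ)
    (h : ∀ i, AO (r i) (f i)) : AO (∑ i, r i) (∑ i, f i) := by
  refine ao_of fun S => ?_
  choose A B hAB using fun i => h i S
  refine ⟨Σ i, Fin (r i), inferInstance, (fun k => A k.1 k.2), (fun k => B k.1 k.2),
    by simp [Fintype.card_sigma], fun x y => ?_⟩
  rw [map_sum, Fintype.sum_sigma]
  exact Finset.sum_congr rfl fun i _ => hAB i x y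

theorem ao_add {n R R' : ℕ} {f g : MvPolynomial (Fin n) ℂ} (hf : AO R f) (hg : AO R' g) :
    AO (R + R') (f + g) := by
  have h := ao_fsum' ![f, g] ![R, R'] (by
    intro i
    fin_cases i
    · exact hf
    · exact hg)
  simpa using h

theorem ao_sub {n R R' : ℕ} {f g : MvPolynomial (Fin n) ℂ} (hf : AO R f) (hg : AO R' g) :
    AO (R + R') (f - g) := by
  rw [sub_eq_add_neg]
  exact ao_add hf (ao_neg hg)

theorem ao_fsum {n : ℕ} {ι : Type*} (s : Finset ι) (r : ι → ℕ)
    (f : ι → MvPolynomial (Fin n) ℂ) (h : ∀ i ∈ s, AO (r i) (f i)) :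
    AO (∑ i ∈ s, r i) (∑ i ∈ s, f i) := by
  classical
  induction s using Finset.induction_on with
  | empty =>
    rw [Finset.sum_empty, Finset.sum_empty]
    exact ao_zero
  | insert a s ha ih =>
    rw [Finset.sum_insert ha, Finset.sum_insert ha]
    exact ao_add (h a (Finset.mem_insert_self a s))
      (ih fun i hi => h i (Finset.mem_insert_of_mem hi))

theorem ao_fsum_const {n R : ℕ} {ι : Type*} (s : Finset ι)
    (f : ι → MvPolynomial (Fin n) ℂ) (h : ∀ i ∈ s, AO R (f i)) :
    AO (s.card * R) (∑ i ∈ s, f i) := by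
  have h1 := ao_fsum s (fun _ => R) f h
  rwa [Finset.sum_const, smul_eq_mul] at h1

theorem ao_mul {n r s : ℕ} {f g : MvPolynomial (Fin n) ℂ} (hf : AO r f) (hg : AO s g) :
    AO (r * s) (f * g) := by
  refine ao_of fun S => ?_
  obtain ⟨A, B, hAB⟩ := hf S
  obtain ⟨A', B', hAB'⟩ := hg S
  refine ⟨Fin r × Fin s, inferInstance, (fun k => A k.1 * A' k.2), (fun k => B k.1 * B' k.2),
    by simp, fun x y => ?_⟩
  rw [map_mul, hAB, hAB', Finset.sum_mul_sum, Fintype.sum_prod_type]
  refine Finset.sum_congr rfl fun i _ => Finset.sum_congr rfl fun j _ => ?_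
  rw [map_mul, map_mul]
  ring

theorem ao_prod {n : ℕ} {ι : Type*} (s : Finset ι) (r : ι → ℕ)
    (f : ι → MvPolynomial (Fin n) ℂ) (h : ∀ i ∈ s, AO (r i) (f i)) :
    AO (∏ i ∈ s, r i) (∏ i ∈ s, f i) := by
  classical
  induction s using Finset.induction_on with
  | empty =>
    rw [Finset.prod_empty, Finset.prod_empty]
    exact ao_one le_rfl
  | insert a s ha ih =>
    rw [Finset.prod_insert ha, Finset.prod_insert ha]
    exact ao_mul (h a (Finset.mem_insert_self a s))
      (ih fun i hi => h i (Finset.mem_insert_of_mem hi))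

theorem ao_det {n r R : ℕ} (E : Matrix (Fin r) (Fin r) (MvPolynomial (Fin n) ℂ))
    (h : ∀ b i, AO R (E b i)) : AO (r.factorial * R ^ r) E.det := by
  rw [Matrix.det_apply]
  have h1 := ao_fsum_const (R := R ^ r) (Finset.univ : Finset (Equiv.Perm (Fin r)))
    (fun σ => Equiv.Perm.sign σ • ∏ i, E (σ i) i) (fun σ _ => by
      have h2 := ao_prod Finset.univ (fun _ => R) (fun i => E (σ i) i)
        (fun i _ => h (σ i) i)
      rw [Finset.prod_const, Finset.card_univ, Fintype.card_fin] at h2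
      rcases Int.units_eq_one_or (Equiv.Perm.sign σ) with hs | hs
      · rw [hs, one_smul]
        exact h2
      · rw [hs, Units.neg_smul, one_smul]
        exact ao_neg h2)
  rwa [Finset.card_univ, Fintype.card_perm, Fintype.card_fin] at h1

/-- Powers of a polynomial of any-order rank `w`. -/
theorem ao_pow {n w : ℕ} {G : MvPolynomial (Fin n) ℂ} (h : AO w G) (l : ℕ) :
    AO ((l + 1) ^ w) (G ^ l) := by
  classical
  refine ao_of fun S => ?_
  obtain ⟨A, B, hAB⟩ := h S
  refine ⟨Fin w → Fin (l + 1), inferInstance,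
    (fun m => if ∑ i, (m i : ℕ) = l then
      C (Nat.multinomial Finset.univ (fun i => (m i : ℕ)) : ℂ) * ∏ i, A i ^ (m i : ℕ) else 0),
    (fun m => ∏ i, B i ^ (m i : ℕ)), by simp, fun x y => ?_⟩
  rw [map_pow, hAB, Finset.sum_pow_eq_sum_piAntidiag]
  symm
  have e1 : ∀ m : Fin w → Fin (l + 1), eval x (if ∑ i, (m i : ℕ) = l then
      C (Nat.multinomial Finset.univ (fun i => (m i : ℕ)) : ℂ) * ∏ i, A i ^ (m i : ℕ) else 0) *
      eval y (∏ i, B i ^ (m i : ℕ)) = if ∑ i, (m i : ℕ) = l then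
        (Nat.multinomial Finset.univ (fun i => (m i : ℕ)) : ℂ) *
          ∏ i, (eval x (A i) * eval y (B i)) ^ (m i : ℕ) else 0 := by
    intro m
    split_ifs
    · rw [map_mul, eval_C, map_prod, map_prod]
      simp only [map_pow, mul_pow]
      rw [Finset.prod_mul_distrib]
      ring
    · simp
  rw [Finset.sum_congr rfl fun m _ => e1 m, ← Finset.sum_filter]
  refine Finset.sum_bij' (fun m _ => fun i => (m i : ℕ))
    (fun m hm => fun i => ⟨min (m i) l, Nat.lt_succ_of_le (min_le_right _ _)⟩) ?_ ?_ ?_ ?_ ?_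
  · intro m hm
    rw [Finset.mem_filter] at hm
    rw [Finset.mem_piAntidiag]
    exact ⟨hm.2, fun i _ => Finset.mem_univ i⟩
  · intro m hm
    rw [Finset.mem_piAntidiag] at hm
    rw [Finset.mem_filter]
    refine ⟨Finset.mem_univ _, ?_⟩
    rw [← hm.1]
    refine Finset.sum_congr rfl fun i _ => ?_
    have h2 : m i ≤ l := by
      rw [← hm.1]
      exact Finset.single_le_sum (fun j _ => Nat.zero_le (m j)) (Finset.mem_univ i)
    show min (m i) _ = m i
    rw [hm.1]
    exact min_eq_left h2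
  · intro m hm
    funext i
    apply Fin.ext
    show min (m i : ℕ) l = m i
    exact min_eq_left (Nat.le_of_lt_succ (m i).2)
  · intro m hm
    rw [Finset.mem_piAntidiag] at hm
    funext i
    show min (m i) l = m i
    refine min_eq_left ?_
    rw [← hm.1]
    exact Finset.single_le_sum (fun j _ => Nat.zero_le (m j)) (Finset.mem_univ i)
  · intro m hm
    rfl

end JB
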